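import Mathlib

/-! Multipliers `k ≤ x` with `d ∣ 2 k n + 1`: counting. -/

set_option autoImplicit false

open Finset

namespace Pool.Agent.K3h31.LP

/-- the number of the `k ≤ x` with `d ∣ 2 k n + 1` -/
def ak (x d n : ℕ) : ℕ := ((Icc 1 x).filter (fun k => d ∣ 2 * k * n + 1)).card

/-- the difference between the number of the `k ≤ x` with `d ∣ 2 k n + 1` and its expected value -/
noncomputable def Ek (x d n : ℕ) : ℝ :=
  (ak x d n : ℝ) - (if Nat.Coprime d (2 * n) then (x : ℝ) / d else 0)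

theorem modEq_dvd_iff {d a b : ℕ} (h : a ≡ b [MOD d]) : d ∣ a ↔ d ∣ b := by
  rw [← Nat.modEq_zero_iff_dvd, ← Nat.modEq_zero_iff_dvd]
  exact ⟨fun h1 => h.symm.trans h1, fun h1 => h.trans h1⟩

theorem ak_congr (x d n n' : ℕ) (h : n ≡ n' [MOD d]) : ak x d n = ak x d n' := by
  unfold ak
  congr 1
  apply filter_congr
  intro k _
  exact modEq_dvd_iff ((h.mul_left (2 * k)).add_right 1)

theorem cop_congr (d n n' : ℕ) (h : n ≡ n' [MOD d]) :
    Nat.Coprime d (2 * n) ↔ Nat.Coprime d (2 * n') := by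
  unfold Nat.Coprime
  rw [Nat.gcd_comm d, Nat.gcd_comm d, (h.mul_left 2).gcd_eq]

theorem Ek_congr (x d n n' : ℕ) (h : n ≡ n' [MOD d]) : Ek x d n = Ek x d n' := by
  unfold Ek
  rw [ak_congr x d n n' h]
  simp only [cop_congr d n n' h]

/-- a divisor of `2 k n + 1` is prime to `2 n` and to `k` -/
theorem cop_of_dvd {d k n : ℕ} (h : d ∣ 2 * k * n + 1) : Nat.Coprime d (2 * k * n) := by
  have h1 : Nat.Coprime (2 * k * n + 1) (2 * k * n) := by
    rw [Nat.coprime_self_add_left]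
    simp
  exact h1.coprime_dvd_left h

theorem ak_zero_of_not_cop {x d n : ℕ} (h : ¬ Nat.Coprime d (2 * n)) : ak x d n = 0 := by
  unfold ak
  rw [card_eq_zero, filter_eq_empty_iff]
  intro k _ hk
  apply h
  have h1 := cop_of_dvd hk
  have e : 2 * k * n = (2 * n) * k := by ring
  rw [e] at h1
  exact Nat.Coprime.coprime_mul_right_right h1

theorem Ek_zero_of_not_cop {x d n : ℕ} (h : ¬ Nat.Coprime d (2 * n)) : Ek x d n = 0 := by
  unfold Ek
  rw [ak_zero_of_not_cop h, if_neg h]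
  simp

theorem Ek_zero_of_even {x d n : ℕ} (h : 2 ∣ d) : Ek x d n = 0 := by
  apply Ek_zero_of_not_cop
  intro h1
  have h2 := Nat.Coprime.coprime_mul_right_right h1
  have h3 : Nat.gcd d 2 = 2 := Nat.gcd_eq_right h
  rw [Nat.Coprime, h3] at h2
  norm_num at h2

/-- if `c` is prime to `d`, the solutions of `d ∣ c s + b` are the elements of one residue class -/
theorem exists_sol (d c b : ℕ) (hd : 0 < d) (h : Nat.Coprime c d) : ∃ s < d, d ∣ c * s + b := by
  obtain ⟨m, hm⟩ := Nat.exists_mul_mod_eq_of_coprime (d * b - b) h hd.ne'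
  refine ⟨m % d, Nat.mod_lt _ hd, ?_⟩
  have h1 : c * (m % d) + b ≡ (d * b - b) + b [MOD d] := by
    apply Nat.ModEq.add_right
    calc c * (m % d) ≡ c * m [MOD d] := (Nat.mod_modEq m d).mul_left c
      _ ≡ d * b - b [MOD d] := hm.2
  rw [modEq_dvd_iff h1, Nat.sub_add_cancel (Nat.le_mul_of_pos_left b hd)]
  exact dvd_mul_right d b

end Pool.Agent.K3h31.LP
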