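import Pool.Agent.K3h31.LP.Per

/-! Sums over complete periods. -/

set_option autoImplicit false

open Finset

namespace Pool.Agent.K3h31.LP

theorem sum_range_mul' (g M : ℕ) (f : ℕ → ℝ) :
    ∑ n ∈ range (g * M), f n = ∑ u ∈ range g, ∑ m ∈ range M, f (u + g * m) := by
  rw [← sum_product']
  symm
  rcases Nat.eq_zero_or_pos g with h | hg
  · subst h
    simp
  apply sum_nbij' (i := fun um => um.1 + g * um.2) (j := fun n => (n % g, n / g))
  · intro um h
    rw [mem_product, mem_range, mem_range] at h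
    rw [mem_range]
    calc um.1 + g * um.2 < g + g * um.2 := by omega
      _ = g * (um.2 + 1) := by ring
      _ ≤ g * M := Nat.mul_le_mul_left g h.2
  · intro n h
    rw [mem_range] at h
    rw [mem_product, mem_range, mem_range]
    exact ⟨Nat.mod_lt _ hg, Nat.div_lt_of_lt_mul h⟩
  · intro um h
    rw [mem_product, mem_range, mem_range] at h
    ext
    · show (um.1 + g * um.2) % g = um.1
      rw [Nat.add_mul_mod_self_left, Nat.mod_eq_of_lt h.1]
    · show (um.1 + g * um.2) / g = um.2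
      rw [Nat.add_mul_div_left _ _ hg, Nat.div_eq_of_lt h.1, zero_add]
  · intro n _
    exact Nat.mod_add_div n g
  · intro um _
    rfl

theorem sum_crt (a b : ℕ) (ha : 0 < a) (hb : 0 < b) (hab : Nat.Coprime a b) (φ ψ : ℕ → ℝ)
    (hφ : ∀ m, φ m = φ (m % a)) (hψ : ∀ m, ψ m = ψ (m % b)) :
    ∑ m ∈ range (a * b), φ m * ψ m = (∑ s ∈ range a, φ s) * ∑ t ∈ range b, ψ t := by
  rw [sum_mul_sum, ← sum_product']
  apply sum_bij (fun m _ => (m % a, m % b))
  · intro m _
    rw [mem_product, mem_range, mem_range]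
    exact ⟨Nat.mod_lt _ ha, Nat.mod_lt _ hb⟩
  · intro m hm m' hm' h
    rw [mem_range] at hm hm'
    rw [Prod.mk.injEq] at h
    have h1 : m ≡ m' [MOD a * b] := (Nat.modEq_and_modEq_iff_modEq_mul hab).1 ⟨h.1, h.2⟩
    exact Nat.ModEq.eq_of_lt_of_lt h1 hm hm'
  · intro st hst
    rw [mem_product, mem_range, mem_range] at hst
    refine ⟨Nat.chineseRemainder hab st.1 st.2, ?_, ?_⟩
    · rw [mem_range]
      exact Nat.chineseRemainder_lt_mul hab _ _ ha.ne' hb.ne'
    · have h1 := (Nat.chineseRemainder hab st.1 st.2).2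
      ext
      · show ((Nat.chineseRemainder hab st.1 st.2 : ℕ)) % a = st.1
        rw [h1.1, Nat.mod_eq_of_lt hst.1]
      · show ((Nat.chineseRemainder hab st.1 st.2 : ℕ)) % b = st.2
        rw [h1.2, Nat.mod_eq_of_lt hst.2]
  · intro m _
    show φ m * ψ m = φ (m % a) * ψ (m % b)
    rw [← hφ, ← hψ]

/-- the sum of the `Ek` over the residue classes modulo `g d` above `u` modulo `g` -/
noncomputable def AA (x g d u : ℕ) : ℝ := ∑ s ∈ range d, Ek x (g * d) (u + g * s)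

theorem full_period (x g a b : ℕ) (ha : 0 < a) (hb : 0 < b) (hab : Nat.Coprime a b) :
    ∑ n ∈ range (g * (a * b)), Ek x (g * a) n * Ek x (g * b) n =
      ∑ u ∈ range g, AA x g a u * AA x g b u := by
  rw [sum_range_mul']
  apply sum_congr rfl
  intro u _
  unfold AA
  apply sum_crt a b ha hb hab (fun m => Ek x (g * a) (u + g * m)) (fun m => Ek x (g * b) (u + g * m))
  · intro m
    apply Ek_congr
    exact Nat.ModEq.add_left u (Nat.ModEq.mul_left' g (Nat.mod_modEq m a).symm)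
  · intro m
    apply Ek_congr
    exact Nat.ModEq.add_left u (Nat.ModEq.mul_left' g (Nat.mod_modEq m b).symm)

/-- for fixed `k` -/
theorem card_s (g u k : ℕ) (T : Finset ℕ) (hT : ∀ p ∈ T, p.Prime) (hT2 : 2 ∉ T)
    (hgT : ∀ p ∈ T, Nat.Coprime g p) :
    ((range (∏ q ∈ T, q)).filter (fun s => g * (∏ q ∈ T, q) ∣ 2 * k * (u + g * s) + 1)).card =
      if (g ∣ 2 * k * u + 1 ∧ ∀ q ∈ T, ¬ q ∣ k) then 1 else 0 := by
  have hd0 : 0 < ∏ q ∈ T, q := prod_pos fun q hq => (hT q hq).pos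
  have hgd : Nat.Coprime g (∏ q ∈ T, q) := Nat.Coprime.prod_right hgT
  have e : ∀ s, 2 * k * (u + g * s) + 1 = 2 * k * g * s + (2 * k * u + 1) := by
    intro s
    ring
  have hdv : ∀ s, (g * (∏ q ∈ T, q) ∣ 2 * k * (u + g * s) + 1) ↔
      (g ∣ 2 * k * u + 1 ∧ (∏ q ∈ T, q) ∣ 2 * k * g * s + (2 * k * u + 1)) := by
    intro s
    rw [e]
    have h1 : g ∣ 2 * k * g * s + (2 * k * u + 1) ↔ g ∣ 2 * k * u + 1 := by
      apply (Nat.dvd_add_right _)
      exact Dvd.intro (2 * k * s) (by ring)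
    constructor
    · intro h
      exact ⟨h1.1 ((dvd_mul_right _ _).trans h), (dvd_mul_left _ _).trans h⟩
    · rintro ⟨h2, h3⟩
      exact hgd.mul_dvd_of_dvd_of_dvd (h1.2 h2) h3
  by_cases hk : g ∣ 2 * k * u + 1
  · by_cases hk2 : ∀ q ∈ T, ¬ q ∣ k
    · rw [if_pos ⟨hk, hk2⟩]
      have hc : Nat.Coprime (2 * k * g) (∏ q ∈ T, q) := by
        apply Nat.Coprime.prod_right
        intro q hq
        apply Nat.Coprime.mul_left
        · apply Nat.Coprime.mul_left
          · rw [Nat.coprime_primes Nat.prime_two (hT q hq)]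
            rintro rfl
            exact hT2 hq
          · exact ((hT q hq).coprime_iff_not_dvd.2 (hk2 q hq)).symm
        · exact hgT q hq
      refine Eq.trans ?_ (card_sol _ (2 * k * g) (2 * k * u + 1) hd0 hc)
      congr 1
      apply filter_congr
      intro s _
      rw [hdv]
      exact ⟨fun h => h.2, fun h => ⟨hk, h⟩⟩
    · rw [if_neg (fun h => hk2 h.2), card_eq_zero, filter_eq_empty_iff]
      intro s _ hs
      apply hk2
      intro q hq hqk
      have h1 : q ∣ 2 * k * (u + g * s) + 1 :=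
        ((dvd_prod_of_mem _ hq).trans (dvd_mul_left _ _)).trans hs
      have h2 : q ∣ 2 * k * (u + g * s) :=
        ((hqk.mul_left 2)).mul_right _
      have h3 := (Nat.dvd_add_right h2).1 h1
      exact (hT q hq).one_lt.ne' (Nat.dvd_one.1 h3)
  · rw [if_neg (fun h => hk h.1), card_eq_zero, filter_eq_empty_iff]
    intro s _ hs
    exact hk ((hdv s).1 hs).1

theorem sum_ak (x g u : ℕ) (T : Finset ℕ) (hT : ∀ p ∈ T, p.Prime) (hT2 : 2 ∉ T)
    (hgT : ∀ p ∈ T, Nat.Coprime g p) :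
    ∑ s ∈ range (∏ q ∈ T, q), ak x (g * ∏ q ∈ T, q) (u + g * s) = nk T g u x := by
  unfold ak nk
  simp_rw [card_filter]
  rw [sum_comm]
  apply sum_congr rfl
  intro k _
  have h := card_s g u k T hT hT2 hgT
  rw [card_filter] at h
  exact h

theorem card_cop (g u d : ℕ) (hd : 0 < d) (hgd : Nat.Coprime g d) :
    ((range d).filter (fun s => Nat.Coprime d (u + g * s))).card = d.totient := by
  unfold Nat.totient
  apply card_bij (fun s _ => (u + g * s) % d)
  · intro s hs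
    rw [mem_filter, mem_range] at *
    refine ⟨Nat.mod_lt _ hd, ?_⟩
    rw [Nat.coprime_comm]
    unfold Nat.Coprime
    rw [(Nat.mod_modEq (u + g * s) d).gcd_eq]
    exact hs.2.symm
  · intro s hs t ht h
    rw [mem_filter, mem_range] at hs ht
    have h1 : u + g * s ≡ u + g * t [MOD d] := h
    have h2 : g * s ≡ g * t [MOD d] := Nat.ModEq.add_left_cancel' u h1
    have h3 := Nat.ModEq.cancel_left_of_coprime (by rwa [Nat.coprime_comm] at hgd) h2
    exact Nat.ModEq.eq_of_lt_of_lt h3 hs.1 ht.1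
  · intro a ha
    rw [mem_filter, mem_range] at ha
    obtain ⟨s, hs, hsd⟩ := exists_sol d g (u + (d - a)) hd hgd
    have h1 : (u + g * s) ≡ a [MOD d] := by
      have h2 : (u + g * s) + (d - a) ≡ a + (d - a) [MOD d] := by
        have e : (u + g * s) + (d - a) = g * s + (u + (d - a)) := by ring
        rw [e]
        have h3 : g * s + (u + (d - a)) ≡ 0 [MOD d] := (Nat.modEq_zero_iff_dvd).2 hsd
        have h4 : a + (d - a) ≡ 0 [MOD d] := by
          rw [Nat.add_sub_cancel' ha.1.le]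
          exact (Nat.modEq_zero_iff_dvd).2 dvd_rfl
        exact h3.trans h4.symm
      exact Nat.ModEq.add_right_cancel' (d - a) h2
    have h2 : (u + g * s) % d = a := by
      rw [h1, Nat.mod_eq_of_lt ha.1]
    refine ⟨s, ?_, h2⟩
    rw [mem_filter, mem_range]
    refine ⟨hs, ?_⟩
    rw [Nat.coprime_comm]
    unfold Nat.Coprime
    rw [h1.gcd_eq]
    exact ha.2.symm

theorem totient_prod (T : Finset ℕ) (hT : ∀ p ∈ T, p.Prime) :
    ((∏ q ∈ T, q).totient : ℝ) / ((∏ q ∈ T, q : ℕ) : ℝ) = ∏ q ∈ T, (1 - 1 / (q : ℝ)) := by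
  have h := Nat.totient_eq_mul_prod_factors (∏ q ∈ T, q)
  rw [Nat.primeFactors_prod hT] at h
  have h0 : 0 < ∏ q ∈ T, q := prod_pos fun q hq => (hT q hq).pos
  have h0r : ((∏ q ∈ T, q : ℕ) : ℝ) ≠ 0 := by exact_mod_cast h0.ne'
  have h2 : ((((∏ q ∈ T, q).totient : ℚ)) : ℝ) =
      ((((∏ q ∈ T, q : ℕ) : ℚ) * ∏ p ∈ T, (1 - (p : ℚ)⁻¹) : ℚ) : ℝ) := by
    exact_mod_cast congrArg (fun z : ℚ => (z : ℝ)) h
  push_cast at h2
  have h3 : ((∏ q ∈ T, q).totient : ℝ) = ((∏ q ∈ T, q : ℕ) : ℝ) * ∏ q ∈ T, (1 - 1 / (q : ℝ)) := by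
    rw [h2]
    push_cast
    congr 1
    apply prod_congr rfl
    intro q _
    rw [one_div]
  rw [h3]
  field_simp

theorem AA_eq (x g u : ℕ) (hg : 0 < g) (T : Finset ℕ) (hT : ∀ p ∈ T, p.Prime) (hT2 : 2 ∉ T)
    (hgT : ∀ p ∈ T, Nat.Coprime g p) :
    AA x g (∏ q ∈ T, q) u = (nk T g u x : ℝ) -
      (if Nat.Coprime g (2 * u) then (x : ℝ) / g * ∏ q ∈ T, (1 - 1 / (q : ℝ)) else 0) := by
  have hd0 : 0 < ∏ q ∈ T, q := prod_pos fun q hq => (hT q hq).pos
  have hgd : Nat.Coprime g (∏ q ∈ T, q) := Nat.Coprime.prod_right hgT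
  have hd0r : ((∏ q ∈ T, q : ℕ) : ℝ) ≠ 0 := by exact_mod_cast hd0.ne'
  have hgr : (g : ℝ) ≠ 0 := by exact_mod_cast hg.ne'
  have h2d : Nat.Coprime (∏ q ∈ T, q) 2 := by
    apply Nat.Coprime.prod_left
    intro q hq
    rw [Nat.coprime_primes (hT q hq) Nat.prime_two]
    rintro rfl
    exact hT2 hq
  unfold AA Ek
  rw [sum_sub_distrib, ← sum_ak x g u T hT hT2 hgT]
  push_cast
  congr 1
  have hiff : ∀ s, Nat.Coprime (g * ∏ q ∈ T, q) (2 * (u + g * s)) ↔
      (Nat.Coprime g (2 * u) ∧ Nat.Coprime (∏ q ∈ T, q) (u + g * s)) := by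
    intro s
    rw [Nat.coprime_mul_iff_left]
    have h1 : Nat.Coprime g (2 * (u + g * s)) ↔ Nat.Coprime g (2 * u) := by
      apply cop_congr
      have : u + g * s ≡ u + 0 [MOD g] := by
        apply Nat.ModEq.add_left
        exact (Nat.modEq_zero_iff_dvd).2 (dvd_mul_right g s)
      simpa using this
    have h3 : Nat.Coprime (∏ q ∈ T, q) (2 * (u + g * s)) ↔
        Nat.Coprime (∏ q ∈ T, q) (u + g * s) := by
      rw [Nat.coprime_mul_iff_right]
      exact ⟨fun h => h.2, fun h => ⟨h2d, h⟩⟩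
    rw [h1, h3]
  by_cases hc : Nat.Coprime g (2 * u)
  · rw [if_pos hc]
    have h4 : ∑ s ∈ range (∏ q ∈ T, q), (if Nat.Coprime (g * ∏ q ∈ T, q) (2 * (u + g * s)) then
        (x : ℝ) / ((g * ∏ q ∈ T, q : ℕ) : ℝ) else 0) =
        ((range (∏ q ∈ T, q)).filter (fun s => Nat.Coprime (∏ q ∈ T, q) (u + g * s))).card *
          ((x : ℝ) / ((g * ∏ q ∈ T, q : ℕ) : ℝ)) := by
      rw [← sum_filter, sum_const, nsmul_eq_mul]
      congr 2
      congr 1
      apply filter_congr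
      intro s _
      rw [hiff]
      exact ⟨fun h => h.2, fun h => ⟨hc, h⟩⟩
    rw [← totient_prod T hT, ← card_cop g u _ hd0 hgd]
    push_cast at h4 ⊢
    rw [h4]
    push_cast at hd0r
    field_simp
  · rw [if_neg hc]
    apply sum_eq_zero
    intro s _
    rw [if_neg]
    rw [hiff]
    exact fun h => hc h.1

end Pool.Agent.K3h31.LP
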