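import Pool.Agent.K3h31.LP.Main

/-! Almost primes `2 k p + 1` with tiny `k`, for almost all primes `p`: all values of `x`. -/

set_option autoImplicit false

open Finset Filter

namespace Pool.Agent.K3h31.LP

theorem mem_good (p : ℕ) (w : ℝ) (x k : ℕ) : k ∈ good p w x ↔ (1 ≤ k ∧ k ≤ x) ∧
    (2 * k * p + 1).primeFactorsList.length ≤ 3 ∧
    ∀ q : ℕ, q.Prime → q ∣ 2 * k * p + 1 → w ≤ q := by
  classical
  unfold good
  rw [mem_filter, mem_Icc]

theorem good_mono (p : ℕ) (w : ℝ) {x x' : ℕ} (h : x ≤ x') : good p w x ⊆ good p w x' := by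
  classical
  intro k hk
  unfold good at *
  rw [mem_filter, mem_Icc] at *
  exact ⟨⟨hk.1.1, hk.1.2.trans h⟩, hk.2⟩

theorem all_x : ∃ δ C : ℝ, 0 < δ ∧ 0 < C ∧ ∃ P₀ : ℕ, ∀ P : ℕ, P₀ ≤ P → ∀ x₀ : ℕ, 1 ≤ x₀ →
    ∃ B : Finset ℕ, (B.card : ℝ) ≤ C * (P * Real.log P ^ 9 / x₀) ∧
      ∀ p : ℕ, p ≤ P → p.Prime → p ∉ B → ∀ x : ℕ, x₀ ≤ x → (x : ℝ) ≤ (P : ℝ) ^ (1 / 20 : ℝ) →
        δ * x / Real.log P ≤ ((good p ((P : ℝ) ^ (1 / 11 : ℝ)) x).card : ℝ) := by
  classical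
  obtain ⟨δ, C, hδ, hC, P₀, H⟩ := one_x
  refine ⟨δ / 2, 2 * C, by positivity, by positivity, max P₀ 3, ?_⟩
  intro P hP x₀ hx₀
  have hP0 : P₀ ≤ P := (le_max_left _ _).trans hP
  have hP3 : 3 ≤ P := (le_max_right _ _).trans hP
  have hPr : (3 : ℝ) ≤ P := by exact_mod_cast hP3
  have hlP : 0 < Real.log P := Real.log_pos (by linarith)
  have hx₀r : (1 : ℝ) ≤ x₀ := by exact_mod_cast hx₀
  set J : Finset ℕ := (range P).filter (fun j => ((2 ^ j * x₀ : ℕ) : ℝ) ≤ (P : ℝ) ^ (1 / 20 : ℝ)) with hJ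
  set Bx : ℕ → Finset ℕ := fun x => (Icc 1 P).filter (fun p => p.Prime ∧
    ((good p ((P : ℝ) ^ (1 / 11 : ℝ)) x).card : ℝ) < δ * x / Real.log P) with hBx
  refine ⟨J.biUnion (fun j => Bx (2 ^ j * x₀)), ?_, ?_⟩
  · have h1 : ((J.biUnion (fun j => Bx (2 ^ j * x₀))).card : ℝ) ≤
        ∑ j ∈ J, ((Bx (2 ^ j * x₀)).card : ℝ) := by exact_mod_cast card_biUnion_le
    refine h1.trans ?_
    have h2 : ∀ j ∈ J, ((Bx (2 ^ j * x₀)).card : ℝ) ≤ C * (P * Real.log P ^ 9 / x₀) * (1 / 2) ^ j := by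
      intro j hj
      rw [hJ, mem_filter] at hj
      have h3 := H P hP0 (2 ^ j * x₀) (Nat.one_le_iff_ne_zero.2 (by positivity)) hj.2
      refine h3.trans (le_of_eq ?_)
      push_cast
      rw [one_div, inv_pow]
      field_simp
    refine (sum_le_sum h2).trans ?_
    rw [← mul_sum]
    have h4 : ∑ j ∈ J, (1 / 2 : ℝ) ^ j ≤ 2 := by
      calc ∑ j ∈ J, (1 / 2 : ℝ) ^ j ≤ ∑ j ∈ range P, (1 / 2 : ℝ) ^ j :=
            sum_le_sum_of_subset_of_nonneg (filter_subset _ _) (fun i _ _ => by positivity)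
        _ ≤ 2 := sum_geometric_two_le P
    calc C * (P * Real.log P ^ 9 / x₀) * ∑ j ∈ J, (1 / 2 : ℝ) ^ j ≤
        C * (P * Real.log P ^ 9 / x₀) * 2 := mul_le_mul_of_nonneg_left h4 (by positivity)
      _ = _ := by ring
  · intro p hpP hpp hpB x hx hxP
    set j : ℕ := Nat.log 2 (x / x₀) with hj
    have hx0 : x / x₀ ≠ 0 := by
      have := Nat.div_pos hx (by omega : 0 < x₀)
      omega
    have h1 : 2 ^ j ≤ x / x₀ := Nat.pow_log_le_self 2 hx0
    have h2 : x / x₀ < 2 ^ (j + 1) := Nat.lt_pow_succ_log_self (by norm_num) _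
    have h3 : 2 ^ j * x₀ ≤ x := (Nat.mul_le_mul_right x₀ h1).trans (Nat.div_mul_le_self x x₀)
    have h4 : x < 2 ^ (j + 1) * x₀ := by
      have := Nat.lt_div_mul_add (a := x) (by omega : 0 < x₀)
      calc x < x / x₀ * x₀ + x₀ := this
        _ = (x / x₀ + 1) * x₀ := by ring
        _ ≤ 2 ^ (j + 1) * x₀ := Nat.mul_le_mul_right x₀ h2
    have h3r : ((2 ^ j * x₀ : ℕ) : ℝ) ≤ x := by exact_mod_cast h3
    have h4r : (x : ℝ) ≤ 2 * ((2 ^ j * x₀ : ℕ) : ℝ) := by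
      have : x ≤ 2 * (2 ^ j * x₀) := by
        rw [pow_succ] at h4
        linarith
      exact_mod_cast this
    have hxP' : x ≤ P := by
      have h5 : (x : ℝ) ≤ P := hxP.trans (by
        calc (P : ℝ) ^ (1 / 20 : ℝ) ≤ (P : ℝ) ^ (1 : ℝ) :=
              Real.rpow_le_rpow_of_exponent_le (by linarith) (by norm_num)
          _ = P := Real.rpow_one _)
      exact_mod_cast h5
    have hjJ : j ∈ J := by
      rw [hJ, mem_filter, mem_range]
      refine ⟨?_, h3r.trans hxP⟩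
      calc j < 2 ^ j := Nat.lt_two_pow_self
        _ ≤ 2 ^ j * x₀ := Nat.le_mul_of_pos_right _ (by omega)
        _ ≤ P := h3.trans hxP'
    have h6 : p ∉ Bx (2 ^ j * x₀) := by
      intro h
      apply hpB
      rw [mem_biUnion]
      exact ⟨j, hjJ, h⟩
    rw [hBx] at h6
    simp only [mem_filter, mem_Icc, not_and, not_lt] at h6
    have h7 := h6 ⟨hpp.one_le, hpP⟩ hpp
    have h8 : ((good p ((P : ℝ) ^ (1 / 11 : ℝ)) (2 ^ j * x₀)).card : ℝ) ≤
        ((good p ((P : ℝ) ^ (1 / 11 : ℝ)) x).card : ℝ) := by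
      exact_mod_cast card_le_card (good_mono p _ h3)
    refine le_trans ?_ (h7.trans h8)
    apply div_le_div_of_nonneg_right _ hlP.le
    calc δ / 2 * x ≤ δ / 2 * (2 * ((2 ^ j * x₀ : ℕ) : ℝ)) := mul_le_mul_of_nonneg_left h4r (by positivity)
      _ = _ := by ring

/-- almost all primes -/
theorem almost_all : ∃ C : ℝ, ∀ P : ℕ, 2 ≤ P →
    ({p : ℕ | p ≤ P ∧ p.Prime ∧ ∀ k : ℕ, 1 ≤ k → (k : ℝ) ≤ Real.log p ^ 11 →
      3 < (2 * k * p + 1).primeFactorsList.length}.ncard : ℝ) ≤ C * P / Real.log P ^ 2 := by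
  classical
  obtain ⟨δ, C, hδ, hC, P₀, H⟩ := all_x
  have ev1 : ∀ᶠ P : ℕ in atTop, 1 * Real.log P ^ 11 * (P : ℝ) ^ (0 : ℝ) ≤
      (P : ℝ) ^ (1 / 20 : ℝ) := log_pow_le 1 11 _ _ (by norm_num)
  have ev2 : ∀ᶠ P : ℕ in atTop, 1 * Real.log P ^ 2 * (P : ℝ) ^ (1 / 2 : ℝ) ≤
      (P : ℝ) ^ (1 : ℝ) := log_pow_le 1 2 _ _ (by norm_num)
  have ev3 : ∀ᶠ P : ℕ in atTop, (4 : ℝ) ≤ Real.log P :=
    (Real.tendsto_log_atTop.comp tendsto_natCast_atTop_atTop).eventually_ge_atTop _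
  obtain ⟨P₁, hP₁⟩ := eventually_atTop.1 (ev1.and (ev2.and ev3))
  set P₂ : ℕ := max (max P₀ P₁) 3 with hP₂
  set C' : ℝ := C * (2 * 2 ^ 11) + 1 with hC'
  refine ⟨C' + Real.log P₂ ^ 2, fun P hP2 => ?_⟩
  have hPr2 : (2 : ℝ) ≤ P := by exact_mod_cast hP2
  have hP0 : (0 : ℝ) < P := by linarith
  have hlP : 0 < Real.log P := Real.log_pos (by linarith)
  have hC'0 : 0 < C' := by positivity
  set E : Set ℕ := {p : ℕ | p ≤ P ∧ p.Prime ∧ ∀ k : ℕ, 1 ≤ k → (k : ℝ) ≤ Real.log p ^ 11 →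
      3 < (2 * k * p + 1).primeFactorsList.length} with hE
  rcases lt_or_ge P P₂ with hlt | hge
  · have h1 : E ⊆ ((Icc 1 P : Finset ℕ) : Set ℕ) := by
      intro p hp
      rw [mem_coe, mem_Icc]
      exact ⟨hp.2.1.one_le, hp.1⟩
    have h2 : E.ncard ≤ P := by
      have := Set.ncard_le_ncard h1 (finite_toSet _)
      rw [Set.ncard_coe_finset, Nat.card_Icc, Nat.add_sub_cancel] at this
      exact this
    have h2r : (E.ncard : ℝ) ≤ P := by exact_mod_cast h2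
    refine h2r.trans ?_
    rw [le_div_iff₀ (by positivity)]
    have h3 : Real.log P ≤ Real.log P₂ := Real.log_le_log hP0 (by exact_mod_cast hlt.le)
    have h4 : Real.log P ^ 2 ≤ Real.log P₂ ^ 2 := pow_le_pow_left₀ hlP.le h3 2
    nlinarith
  · have hPP0 : P₀ ≤ P := ((le_max_left _ _).trans (le_max_left _ _)).trans hge
    have hPP1 : P₁ ≤ P := ((le_max_right _ _).trans (le_max_left _ _)).trans hge
    obtain ⟨e1, e2, e3⟩ := hP₁ P hPP1
    rw [Real.rpow_zero, mul_one, one_mul] at e1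
    rw [one_mul, Real.rpow_one] at e2
    set L : ℝ := Real.log P ^ 11 / 2 ^ 11 with hL
    have hL1 : 2 ≤ L := by
      rw [hL, le_div_iff₀ (by positivity)]
      calc (2 : ℝ) * 2 ^ 11 ≤ 4 ^ 11 := by norm_num
        _ ≤ Real.log P ^ 11 := pow_le_pow_left₀ (by norm_num) e3 11
    set x₀ : ℕ := ⌊L⌋₊ with hx₀
    have hx1 : 1 ≤ x₀ := Nat.le_floor (by push_cast; linarith)
    have hxL : (x₀ : ℝ) ≤ L := Nat.floor_le (by linarith)
    have hxL2 : L / 2 ≤ x₀ := by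
      have := Nat.lt_floor_add_one L
      rw [← hx₀] at this
      linarith
    have hx0 : (0 : ℝ) < x₀ := by exact_mod_cast hx1
    have hLP : L ≤ (P : ℝ) ^ (1 / 20 : ℝ) := by
      refine le_trans ?_ e1
      rw [hL]
      exact div_le_self (by positivity) (by norm_num)
    obtain ⟨B, hB1, hB2⟩ := H P hPP0 x₀ hx1
    have hsub : E ⊆ ((B ∪ Icc 1 ⌊(P : ℝ) ^ (1 / 2 : ℝ)⌋₊ : Finset ℕ) : Set ℕ) := by
      intro p hp
      obtain ⟨hpP, hpp, hpk⟩ := hp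
      rw [mem_coe, mem_union]
      by_contra hcon
      push Not at hcon
      obtain ⟨hn1, hn2⟩ := hcon
      have g1 : (P : ℝ) ^ (1 / 2 : ℝ) < p := by
        by_contra h
        push Not at h
        apply hn2
        rw [mem_Icc]
        exact ⟨hpp.one_le, Nat.le_floor h⟩
      have g2 := hB2 p hpP hpp hn1 x₀ le_rfl (hxL.trans hLP)
      have g3 : 0 < ((good p ((P : ℝ) ^ (1 / 11 : ℝ)) x₀).card : ℝ) :=
        lt_of_lt_of_le (by positivity) g2
      have g4 : 0 < (good p ((P : ℝ) ^ (1 / 11 : ℝ)) x₀).card := by exact_mod_cast g3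
      obtain ⟨k, hk⟩ := card_pos.1 g4
      unfold good at hk
      rw [mem_filter, mem_Icc] at hk
      have g5 : Real.log P ≤ 2 * Real.log p := by
        have h1 := Real.log_le_log (by positivity) g1.le
        rw [Real.log_rpow hP0] at h1
        linarith
      have g6 : (k : ℝ) ≤ Real.log p ^ 11 := by
        calc (k : ℝ) ≤ x₀ := by exact_mod_cast hk.1.2
          _ ≤ L := hxL
          _ = (Real.log P / 2) ^ 11 := by rw [hL, div_pow]
          _ ≤ _ := pow_le_pow_left₀ (by linarith) (by linarith) 11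
      have g7 := hpk k hk.1.1 g6
      have g8 := hk.2.1
      omega
    have h1 : E.ncard ≤ B.card + ⌊(P : ℝ) ^ (1 / 2 : ℝ)⌋₊ := by
      have h2 := Set.ncard_le_ncard hsub (finite_toSet _)
      rw [Set.ncard_coe_finset] at h2
      refine h2.trans ((card_union_le _ _).trans ?_)
      rw [Nat.card_Icc, Nat.add_sub_cancel]
    have h1r : (E.ncard : ℝ) ≤ B.card + (P : ℝ) ^ (1 / 2 : ℝ) := by
      calc (E.ncard : ℝ) ≤ ((B.card + ⌊(P : ℝ) ^ (1 / 2 : ℝ)⌋₊ : ℕ) : ℝ) := by exact_mod_cast h1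
        _ = (B.card : ℝ) + (⌊(P : ℝ) ^ (1 / 2 : ℝ)⌋₊ : ℝ) := by push_cast; ring
        _ ≤ _ := add_le_add le_rfl (Nat.floor_le (by positivity))
    have h2 : C * (P * Real.log P ^ 9 / x₀) ≤ C * (2 * 2 ^ 11) * P / Real.log P ^ 2 := by
      have h3 : P * Real.log P ^ 9 / x₀ ≤ P * Real.log P ^ 9 / (L / 2) :=
        div_le_div_of_nonneg_left (by positivity) (by linarith) hxL2
      have h4 : P * Real.log P ^ 9 / (L / 2) = (2 * 2 ^ 11) * P / Real.log P ^ 2 := by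
        rw [hL]
        field_simp
      rw [h4] at h3
      calc C * (P * Real.log P ^ 9 / x₀) ≤ C * ((2 * 2 ^ 11) * P / Real.log P ^ 2) :=
            mul_le_mul_of_nonneg_left h3 hC.le
        _ = _ := by ring
    have h5 : (P : ℝ) ^ (1 / 2 : ℝ) ≤ P / Real.log P ^ 2 := by
      rw [le_div_iff₀ (by positivity)]
      linarith
    have h6 : (C' + Real.log P₂ ^ 2) * P / Real.log P ^ 2 =
        C * (2 * 2 ^ 11) * P / Real.log P ^ 2 + P / Real.log P ^ 2 +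
        Real.log P₂ ^ 2 * P / Real.log P ^ 2 := by
      rw [hC']
      ring
    rw [h6]
    have h7 : 0 ≤ Real.log P₂ ^ 2 * P / Real.log P ^ 2 := by positivity
    linarith [hB1.trans h2]

end Pool.Agent.K3h31.LP
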