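import Pool.Agent.K3h31.LP.Sq
import Pool.Agent.Y882.GW.Num2

/-! Almost primes `2 k p + 1` with tiny `k`, for almost all primes `p`: one value of `x`. -/

set_option autoImplicit false

open Finset Filter

namespace Pool.Agent.K3h31.LP

open Pool.Agent.W23.DC
open Pool.Agent.Y882
open Pool.Agent.Y882.KW

open Classical in
/-- the `k ≤ x` such that `2 k p + 1` has at most three prime factors, all of them at least `w` -/
noncomputable def good (p : ℕ) (w : ℝ) (x : ℕ) : Finset ℕ :=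
  (Icc 1 x).filter (fun k => (2 * k * p + 1).primeFactorsList.length ≤ 3 ∧
    ∀ q : ℕ, q.Prime → q ∣ 2 * k * p + 1 → w ≤ q)

/-- positive weights -/
theorem pos_good (Y : ℕ) (hY : 2 ≤ Y) (p x : ℕ) (hp : 1 ≤ p) (hx : 2 * x * p + 1 ≤ Y) (w : ℝ)
    (hw : w ≤ (Y : ℝ) ^ ((37 / 100 : ℝ) / 4)) :
    (((Icc 1 x).filter (fun k => 0 < WW Y ((37 / 100 : ℝ) / 4) (9 / 10 * (37 / 100 : ℝ)) (80 / 77)
      (80 / 77 / (9 / 10 * (37 / 100 : ℝ))) (2 * k * p + 1))).card : ℝ) ≤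
      (good p w x).card + (sqk Y ((37 / 100 : ℝ) / 4) (9 / 10 * (37 / 100 : ℝ)) p x).card := by
  classical
  have hsub : (Icc 1 x).filter (fun k => 0 < WW Y ((37 / 100 : ℝ) / 4) (9 / 10 * (37 / 100 : ℝ))
      (80 / 77) (80 / 77 / (9 / 10 * (37 / 100 : ℝ))) (2 * k * p + 1)) ⊆
      good p w x ∪ sqk Y ((37 / 100 : ℝ) / 4) (9 / 10 * (37 / 100 : ℝ)) p x := by
    intro k hk
    rw [mem_filter] at hk
    obtain ⟨hk1, hk2⟩ := hk
    rw [mem_union]
    by_cases hs : k ∈ sqk Y ((37 / 100 : ℝ) / 4) (9 / 10 * (37 / 100 : ℝ)) p x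
    · exact Or.inr hs
    left
    have hkx := (mem_Icc.1 hk1).2
    have hle : 2 * k * p + 1 ≤ Y := by
      refine le_trans ?_ hx
      apply Nat.add_le_add_right
      exact Nat.mul_le_mul_right p (Nat.mul_le_mul_left 2 hkx)
    obtain ⟨h3, h4⟩ := almost Y hY ((37 / 100 : ℝ) / 4) (9 / 10 * (37 / 100 : ℝ)) (80 / 77) 1 3
      (by norm_num) (by norm_num) (by norm_num) (by norm_num) (by norm_num) (2 * k * p + 1)
      (by omega) (by
        rw [Real.rpow_one]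
        exact_mod_cast hle) hk2 (by
        intro q hq hd
        apply hs
        unfold sqk
        rw [mem_filter]
        exact ⟨hk1, q, hq, hd⟩)
    unfold good
    rw [mem_filter]
    exact ⟨hk1, h3, fun q hq hd => hw.trans (h4 q hq hd)⟩
  exact_mod_cast (card_le_card hsub).trans (card_union_le _ _)

/-- the remainder of the sieve -/
theorem remainder (Y : ℕ) (hY : 2 ≤ Y) (υ : ℝ) (p x : ℕ) (hp : p.Prime) (hpY : (Y : ℝ) ^ υ < p)
    (c : Finset ℕ → ℝ) :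
    ∑ T ∈ (PZ Y υ).powerset, c T *
      ((((Icc 1 x).filter (fun k => ∏ q ∈ T, q ∣ 2 * k * p + 1)).card : ℝ) - (Icc 1 x).card *
        ∏ q ∈ T, (if q = 2 then (0 : ℝ) else 1 / q)) =
    ∑ T ∈ (PZ Y υ).powerset, c T * Ek x (∏ q ∈ T, q) p := by
  classical
  apply sum_congr rfl
  intro T hT
  rw [mem_powerset] at hT
  have hTp : ∀ q ∈ T, q.Prime ∧ (q : ℝ) < (Y : ℝ) ^ υ := by
    intro q hq
    have := hT hq
    unfold PZ at this
    rw [mem_filter, mem_Icc] at this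
    exact ⟨this.2.1, (tt_lt Y q υ hY this.2.1.pos).1 this.2.2⟩
  congr 1
  unfold Ek ak
  congr 1
  by_cases h2 : 2 ∈ T
  · have h0 : ∏ q ∈ T, (if q = 2 then (0 : ℝ) else 1 / q) = 0 :=
      prod_eq_zero h2 (by rw [if_pos rfl])
    rw [h0, mul_zero, if_neg]
    intro h
    have h3 : (2 : ℕ) ∣ ∏ q ∈ T, q := dvd_prod_of_mem (fun q => q) h2
    have h4 := Nat.Coprime.coprime_mul_right_right h
    have h5 : Nat.gcd (∏ q ∈ T, q) 2 = 2 := Nat.gcd_eq_right h3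
    rw [Nat.Coprime, h5] at h4
    norm_num at h4
  · have hcop : Nat.Coprime (∏ q ∈ T, q) (2 * p) := by
      apply Nat.Coprime.prod_left
      intro q hq
      apply Nat.Coprime.mul_right
      · rw [Nat.coprime_primes (hTp q hq).1 Nat.prime_two]
        rintro rfl
        exact h2 hq
      · rw [Nat.coprime_primes (hTp q hq).1 hp]
        rintro rfl
        exact absurd (hTp q hq).2 (not_lt.2 hpY.le)
    rw [if_pos hcop]
    have h3 : ∏ q ∈ T, (if q = 2 then (0 : ℝ) else 1 / q) = ∏ q ∈ T, 1 / (q : ℝ) := by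
      apply prod_congr rfl
      intro q hq
      rw [if_neg]
      rintro rfl
      exact h2 hq
    rw [h3, Nat.card_Icc, Nat.add_sub_cancel, prod_div_distrib, prod_const_one]
    push_cast
    ring

theorem one_x : ∃ δ C : ℝ, 0 < δ ∧ 0 < C ∧ ∃ P₀ : ℕ, ∀ P : ℕ, P₀ ≤ P → ∀ x : ℕ, 1 ≤ x →
    (x : ℝ) ≤ (P : ℝ) ^ (1 / 20 : ℝ) →
    (((Icc 1 P).filter (fun p => p.Prime ∧ ((good p ((P : ℝ) ^ (1 / 11 : ℝ)) x).card : ℝ) <
      δ * x / Real.log P)).card : ℝ) ≤ C * (P * Real.log P ^ 9 / x) := by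
  classical
  obtain ⟨δ₀, hδ₀, Y0, HL⟩ := lower (37 / 100) ((37 / 100 : ℝ) / 4) (9 / 10 * (37 / 100 : ℝ)) (80 / 77)
    (38 / 100) (by norm_num) (by norm_num) (by norm_num) (by norm_num) (by norm_num) (by norm_num)
    (by norm_num) (cond_C (37 / 100) (80 / 77) (by norm_num) (by norm_num) (by norm_num)) (by norm_num)
  obtain ⟨C₁, hC₁, HU⟩ := prod_up
  set E : ℝ := 2400 * C₁ ^ 5 / δ₀ ^ 2 * 1024 + 3 with hE
  refine ⟨δ₀ / 4, E, by positivity, by positivity, ?_⟩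
  -- large `P`
  have ev1 : ∀ᶠ P : ℕ in atTop, 4 * Real.log P ^ 0 * (P : ℝ) ^ (21 / 20 : ℝ) ≤
      (P : ℝ) ^ (53 / 50 : ℝ) := log_pow_le 4 0 _ _ (by norm_num)
  have ev2 : ∀ᶠ P : ℕ in atTop, (25600 / δ₀ ^ 2) * Real.log P ^ 4 * (P : ℝ) ^ (81 / 100 : ℝ) ≤
      (P : ℝ) ^ (19 / 20 : ℝ) := log_pow_le _ 4 _ _ (by norm_num)
  have ev3 : ∀ᶠ P : ℕ in atTop, (24 / δ₀) * Real.log P ^ 1 * (P : ℝ) ^ (91 / 100 : ℝ) ≤
      (P : ℝ) ^ (19 / 20 : ℝ) := log_pow_le _ 1 _ _ (by norm_num)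
  have ev4 : ∀ᶠ P : ℕ in atTop, (Y0 : ℝ) ≤ (P : ℝ) ^ (1 : ℝ) :=
    ((tendsto_rpow_atTop (by norm_num)).comp tendsto_natCast_atTop_atTop).eventually_ge_atTop _
  have ev5 : ∀ᶠ P : ℕ in atTop, (2 : ℝ) ≤ (P : ℝ) ^ (1 / 11 : ℝ) :=
    ((tendsto_rpow_atTop (by norm_num)).comp tendsto_natCast_atTop_atTop).eventually_ge_atTop _
  obtain ⟨P₀, hP₀⟩ := eventually_atTop.1 (ev1.and (ev2.and (ev3.and (ev4.and (ev5.and
    (eventually_ge_atTop 3))))))
  refine ⟨P₀, ?_⟩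
  intro P hP x hx1 hxP
  obtain ⟨e1, e2, e3, e4, e5, e6⟩ := hP₀ P hP
  have hPr : (3 : ℝ) ≤ P := by exact_mod_cast e6
  have hP0 : (0 : ℝ) < P := by linarith
  have hP1 : (1 : ℝ) ≤ P := by linarith
  have hx1r : (1 : ℝ) ≤ x := by exact_mod_cast hx1
  have hx0 : (0 : ℝ) < x := by linarith
  have hlP1 : 1 ≤ Real.log P := by
    have h1 : Real.exp 1 ≤ P := by
      have := Real.exp_one_lt_d9
      linarith
    rw [← Real.log_exp 1]
    exact Real.log_le_log (Real.exp_pos 1) h1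
  have hlP0 : 0 < Real.log P := by linarith
  -- `Y`
  set Y : ℕ := ⌊(P : ℝ) ^ (53 / 50 : ℝ)⌋₊ with hYdef
  have hYle : (Y : ℝ) ≤ (P : ℝ) ^ (53 / 50 : ℝ) := Nat.floor_le (by positivity)
  have hYlt : (P : ℝ) ^ (53 / 50 : ℝ) < Y + 1 := Nat.lt_floor_add_one _
  rw [pow_zero, mul_one] at e1
  have h2120 : (1 : ℝ) ≤ (P : ℝ) ^ (21 / 20 : ℝ) := Real.one_le_rpow hP1 (by norm_num)
  have hYge : 3 * (P : ℝ) ^ (21 / 20 : ℝ) ≤ Y := by linarith
  have hYge' : (P : ℝ) ^ (21 / 20 : ℝ) ≤ Y := by linarith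
  have hPY : (P : ℝ) ≤ Y := by
    refine le_trans ?_ hYge'
    calc (P : ℝ) = (P : ℝ) ^ (1 : ℝ) := (Real.rpow_one _).symm
      _ ≤ _ := Real.rpow_le_rpow_of_exponent_le hP1 (by norm_num)
  have hYr : (3 : ℝ) ≤ Y := by linarith
  have hY3 : 3 ≤ Y := by exact_mod_cast hYr
  have hY0r : (0 : ℝ) < Y := by linarith
  have hY1r : (1 : ℝ) ≤ Y := by linarith
  have hYY0 : Y0 ≤ Y := by
    rw [Real.rpow_one] at e4
    have : (Y0 : ℝ) ≤ Y := e4.trans hPY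
    exact_mod_cast this
  have hlY1 : Real.log P ≤ Real.log Y := Real.log_le_log hP0 hPY
  have hlY2 : Real.log Y ≤ 2 * Real.log P := by
    have h1 := Real.log_le_log hY0r hYle
    rw [Real.log_rpow hP0] at h1
    linarith
  have hlY0 : 0 < Real.log Y := by linarith
  obtain ⟨c, hcL, hcD, HC⟩ := HL Y hYY0
  -- the values are at most `Y`
  have hval : ∀ p ≤ P, 2 * x * p + 1 ≤ Y := by
    intro p hp
    have h1 : (2 * x * p + 1 : ℝ) ≤ Y := by
      have h2 : (p : ℝ) ≤ P := by exact_mod_cast hp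
      calc (2 * x * p + 1 : ℝ) ≤ 2 * (P : ℝ) ^ (1 / 20 : ℝ) * P + (P : ℝ) ^ (21 / 20 : ℝ) := by
            apply add_le_add _ h2120
            apply mul_le_mul _ h2 (Nat.cast_nonneg _) (by positivity)
            linarith
        _ = 2 * ((P : ℝ) ^ (1 / 20 : ℝ) * (P : ℝ) ^ (1 : ℝ)) + (P : ℝ) ^ (21 / 20 : ℝ) := by
            rw [Real.rpow_one]
            ring
        _ = 3 * (P : ℝ) ^ (21 / 20 : ℝ) := by
            rw [← Real.rpow_add hP0]
            norm_num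
            ring
        _ ≤ Y := hYge
    exact_mod_cast h1
  -- the powers of `Y`
  have hYζ : (P : ℝ) ^ (1 / 11 : ℝ) ≤ (Y : ℝ) ^ ((37 / 100 : ℝ) / 4) := by
    calc (P : ℝ) ^ (1 / 11 : ℝ) ≤ (P : ℝ) ^ ((21 / 20 : ℝ) * ((37 / 100 : ℝ) / 4)) :=
          Real.rpow_le_rpow_of_exponent_le hP1 (by norm_num)
      _ = ((P : ℝ) ^ (21 / 20 : ℝ)) ^ ((37 / 100 : ℝ) / 4) := Real.rpow_mul hP0.le _ _
      _ ≤ _ := Real.rpow_le_rpow (by positivity) hYge' (by norm_num)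
  have hYυ : (Y : ℝ) ^ (9 / 10 * (37 / 100 : ℝ)) ≤ (P : ℝ) ^ (81 / 100 : ℝ) := by
    calc (Y : ℝ) ^ (9 / 10 * (37 / 100 : ℝ)) ≤
        ((P : ℝ) ^ (53 / 50 : ℝ)) ^ (9 / 10 * (37 / 100 : ℝ)) :=
          Real.rpow_le_rpow hY0r.le hYle (by norm_num)
      _ = (P : ℝ) ^ ((53 / 50 : ℝ) * (9 / 10 * (37 / 100 : ℝ))) := (Real.rpow_mul hP0.le _ _).symm
      _ ≤ _ := Real.rpow_le_rpow_of_exponent_le hP1 (by norm_num)
  have hYD : ((Y : ℝ) ^ (38 / 100 : ℝ)) ^ 2 ≤ (P : ℝ) ^ (81 / 100 : ℝ) := by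
    calc ((Y : ℝ) ^ (38 / 100 : ℝ)) ^ 2 ≤ (((P : ℝ) ^ (53 / 50 : ℝ)) ^ (38 / 100 : ℝ)) ^ 2 := by
          apply pow_le_pow_left₀ (by positivity)
          exact Real.rpow_le_rpow hY0r.le hYle (by norm_num)
      _ = (P : ℝ) ^ ((53 / 50 : ℝ) * (38 / 100 : ℝ) * 2) := by
          rw [← Real.rpow_mul hP0.le, ← Real.rpow_natCast, ← Real.rpow_mul hP0.le]
          norm_num
      _ ≤ _ := Real.rpow_le_rpow_of_exponent_le hP1 (by norm_num)
  -- `P / x` is large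
  have hPx : (P : ℝ) ^ (19 / 20 : ℝ) ≤ P * Real.log P ^ 9 / x := by
    rw [le_div_iff₀ hx0]
    calc (P : ℝ) ^ (19 / 20 : ℝ) * x ≤ (P : ℝ) ^ (19 / 20 : ℝ) * (P : ℝ) ^ (1 / 20 : ℝ) :=
          mul_le_mul_of_nonneg_left hxP (by positivity)
      _ = P := by
          rw [← Real.rpow_add hP0]
          norm_num
      _ ≤ P * Real.log P ^ 9 := le_mul_of_one_le_right hP0.le (one_le_pow₀ hlP1)
  set t : ℝ := δ₀ / 4 * x / Real.log Y with ht
  have ht0 : 0 < t := by positivity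
  set S : ℕ → ℝ := fun n => ∑ T ∈ (PZ Y (9 / 10 * (37 / 100 : ℝ))).powerset, c T *
    Ek x (∏ q ∈ T, q) n with hS
  -- the exceptional sets
  set A1 : Finset ℕ := Icc 1 ⌊(Y : ℝ) ^ (9 / 10 * (37 / 100 : ℝ))⌋₊ with hA1
  set A2 : Finset ℕ := (range (P + 1)).filter (fun n => t < |S n|) with hA2
  set A3 : Finset ℕ := (Icc 1 P).filter (fun n => t <
    ((sqk Y ((37 / 100 : ℝ) / 4) (9 / 10 * (37 / 100 : ℝ)) n x).card : ℝ)) with hA3
  have hsub : (Icc 1 P).filter (fun p => p.Prime ∧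
      ((good p ((P : ℝ) ^ (1 / 11 : ℝ)) x).card : ℝ) < δ₀ / 4 * x / Real.log P) ⊆
      (A1 ∪ A2) ∪ A3 := by
    intro p hp
    rw [mem_filter] at hp
    obtain ⟨hp1, hpp, hp2⟩ := hp
    have hpP := (mem_Icc.1 hp1).2
    by_contra hcon
    rw [mem_union, mem_union] at hcon
    push Not at hcon
    obtain ⟨⟨hn1, hn2⟩, hn3⟩ := hcon
    have g1 : (Y : ℝ) ^ (9 / 10 * (37 / 100 : ℝ)) < p := by
      by_contra h
      push Not at h
      apply hn1
      rw [hA1, mem_Icc]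
      exact ⟨hpp.one_le, Nat.le_floor h⟩
    have g2 : |S p| ≤ t := by
      by_contra h
      push Not at h
      apply hn2
      rw [hA2, mem_filter, mem_range]
      exact ⟨by omega, h⟩
    have g3 : ((sqk Y ((37 / 100 : ℝ) / 4) (9 / 10 * (37 / 100 : ℝ)) p x).card : ℝ) ≤ t := by
      by_contra h
      push Not at h
      apply hn3
      rw [hA3, mem_filter]
      exact ⟨hp1, h⟩
    have g4 := HC (fun q => if q = 2 then (0 : ℝ) else 1 / q) (Or.inl (by simp))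
      (fun q _ hq => by simp [hq]) (Icc 1 x) (fun k => 2 * k * p + 1)
    have g5 := remainder Y (by omega) (9 / 10 * (37 / 100 : ℝ)) p x hpp g1 c
    have g6 := pos_good Y (by omega) p x hpp.one_le (hval p hpP) ((P : ℝ) ^ (1 / 11 : ℝ)) hYζ
    have g7 : δ₀ * ((Icc 1 x).card : ℝ) / Real.log Y + S p ≤
        (((Icc 1 x).filter (fun k => 0 < WW Y ((37 / 100 : ℝ) / 4) (9 / 10 * (37 / 100 : ℝ)) (80 / 77)
      (80 / 77 / (9 / 10 * (37 / 100 : ℝ))) (2 * k * p + 1))).card : ℝ) := by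
      have e : S p = ∑ T ∈ (PZ Y (9 / 10 * (37 / 100 : ℝ))).powerset, c T * Ek x (∏ q ∈ T, q) p := rfl
      rw [e, ← g5]
      exact g4
    rw [Nat.card_Icc, Nat.add_sub_cancel] at g7
    have g8 := (abs_le.1 g2).1
    have g9 : δ₀ * (x : ℝ) / Real.log Y = 4 * t := by
      rw [ht]
      ring
    rw [g9] at g7
    have g10 : δ₀ / 4 * x / Real.log P ≤ 2 * t := by
      rw [ht, mul_div_assoc', div_le_div_iff₀ hlP0 hlY0]
      have : 0 ≤ δ₀ / 4 * x := by positivity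
      nlinarith
    linarith
  -- the size of the exceptional sets
  have c1 : (A1.card : ℝ) ≤ P * Real.log P ^ 9 / x := by
    rw [hA1, Nat.card_Icc, Nat.add_sub_cancel]
    refine (Nat.floor_le (by positivity)).trans (hYυ.trans (le_trans ?_ hPx))
    exact Real.rpow_le_rpow_of_exponent_le hP1 (by norm_num)
  have c3 : (A3.card : ℝ) ≤ P * Real.log P ^ 9 / x := by
    refine le_trans ?_ (e3.trans hPx)
    have h1 := markov (Icc 1 P)
      (fun n => ((sqk Y ((37 / 100 : ℝ) / 4) (9 / 10 * (37 / 100 : ℝ)) n x).card : ℝ))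
      (fun n => Nat.cast_nonneg _) t
    have h2 := sq_sum (Y := Y) (by omega) ((37 / 100 : ℝ) / 4) (9 / 10 * (37 / 100 : ℝ))
      (e5.trans hYζ) P x
    have h3 : (P : ℝ) * (2 / (Y : ℝ) ^ ((37 / 100 : ℝ) / 4)) ≤ 2 * (P : ℝ) ^ (91 / 100 : ℝ) := by
      calc (P : ℝ) * (2 / (Y : ℝ) ^ ((37 / 100 : ℝ) / 4)) ≤ P * (2 / (P : ℝ) ^ (1 / 11 : ℝ)) := by
            apply mul_le_mul_of_nonneg_left _ hP0.le
            exact div_le_div_of_nonneg_left (by norm_num) (by positivity) hYζ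
        _ = 2 * ((P : ℝ) ^ (1 : ℝ) / (P : ℝ) ^ (1 / 11 : ℝ)) := by
            rw [Real.rpow_one]
            ring
        _ = 2 * (P : ℝ) ^ (1 - 1 / 11 : ℝ) := by rw [Real.rpow_sub hP0]
        _ ≤ _ := by
            apply mul_le_mul_of_nonneg_left _ (by norm_num)
            exact Real.rpow_le_rpow_of_exponent_le hP1 (by norm_num)
    have h4 : (Y : ℝ) ^ (9 / 10 * (37 / 100 : ℝ)) ≤ (P : ℝ) ^ (91 / 100 : ℝ) :=
      hYυ.trans (Real.rpow_le_rpow_of_exponent_le hP1 (by norm_num))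
    have h5 : (A3.card : ℝ) * t ≤ x * (3 * (P : ℝ) ^ (91 / 100 : ℝ)) := by
      refine h1.trans (h2.trans ?_)
      apply mul_le_mul_of_nonneg_left _ hx0.le
      linarith
    have h6 : (A3.card : ℝ) ≤ x * (3 * (P : ℝ) ^ (91 / 100 : ℝ)) / t := by
      rw [le_div_iff₀ ht0]
      exact h5
    refine h6.trans ?_
    rw [ht]
    have e7 : x * (3 * (P : ℝ) ^ (91 / 100 : ℝ)) / (δ₀ / 4 * x / Real.log Y) =
        12 / δ₀ * Real.log Y * (P : ℝ) ^ (91 / 100 : ℝ) := by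
      field_simp
      ring
    rw [e7, pow_one]
    apply mul_le_mul_of_nonneg_right _ (by positivity)
    have : 0 < 12 / δ₀ := by positivity
    calc 12 / δ₀ * Real.log Y ≤ 12 / δ₀ * (2 * Real.log P) := mul_le_mul_of_nonneg_left hlY2 this.le
      _ = _ := by ring
  have c2 : (A2.card : ℝ) ≤ (2400 * C₁ ^ 5 / δ₀ ^ 2 * 1024) * (P * Real.log P ^ 9 / x) +
      P * Real.log P ^ 9 / x := by
    have h1 := cheb (range (P + 1)) S t ht0.le
    have hPZs : PZ Y (9 / 10 * (37 / 100 : ℝ)) ⊆ (Icc 1 Y).filter Nat.Prime := by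
      intro q hq
      unfold PZ at hq
      rw [mem_filter] at hq ⊢
      exact ⟨hq.1, hq.2.1⟩
    have h2 := moment (PZ Y (9 / 10 * (37 / 100 : ℝ))) (fun q hq => (mem_filter.1 (hPZs hq)).2) c
      (5 * Real.log Y) ((Y : ℝ) ^ (38 / 100 : ℝ)) (by positivity) (by positivity) hcL hcD x (P + 1)
    have h3 := HU Y hY3 _ hPZs
    have h30 : 0 ≤ ∏ q ∈ PZ Y (9 / 10 * (37 / 100 : ℝ)), (1 + 1 / (q : ℝ)) := by positivity
    have h4 : ∏ q ∈ PZ Y (9 / 10 * (37 / 100 : ℝ)), (1 + 2 / (q : ℝ)) ≤ (C₁ * Real.log Y) ^ 2 :=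
      (prod_up2 _).trans (pow_le_pow_left₀ h30 h3 2)
    have h40 : 0 ≤ ∏ q ∈ PZ Y (9 / 10 * (37 / 100 : ℝ)), (1 + 2 / (q : ℝ)) := by positivity
    have h5 : (∏ q ∈ PZ Y (9 / 10 * (37 / 100 : ℝ)), (1 + 1 / (q : ℝ))) *
        ((∏ q ∈ PZ Y (9 / 10 * (37 / 100 : ℝ)), (1 + 2 / (q : ℝ))) *
        ∏ q ∈ PZ Y (9 / 10 * (37 / 100 : ℝ)), (1 + 2 / (q : ℝ))) ≤ (C₁ * Real.log Y) ^ 5 := by
      calc _ ≤ (C₁ * Real.log Y) * ((C₁ * Real.log Y) ^ 2 * (C₁ * Real.log Y) ^ 2) := by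
            apply mul_le_mul h3 _ (mul_nonneg h40 h40) (by positivity)
            exact mul_le_mul h4 h4 h40 (by positivity)
        _ = _ := by ring
    have h6 : (A2.card : ℝ) * t ^ 2 ≤ (5 * Real.log Y) ^ 2 * (6 * ((P + 1 : ℕ) : ℝ) * x *
        (C₁ * Real.log Y) ^ 5 + 4 * (x : ℝ) ^ 2 * (P : ℝ) ^ (81 / 100 : ℝ)) := by
      refine h1.trans (h2.trans ?_)
      apply mul_le_mul_of_nonneg_left _ (by positivity)
      apply add_le_add
      · exact mul_le_mul_of_nonneg_left h5 (by positivity)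
      · exact mul_le_mul_of_nonneg_left hYD (by positivity)
    have h7 : (A2.card : ℝ) ≤ (5 * Real.log Y) ^ 2 * (6 * ((P + 1 : ℕ) : ℝ) * x *
        (C₁ * Real.log Y) ^ 5 + 4 * (x : ℝ) ^ 2 * (P : ℝ) ^ (81 / 100 : ℝ)) / t ^ 2 := by
      rw [le_div_iff₀ (by positivity)]
      exact h6
    refine h7.trans ?_
    have e8 : (5 * Real.log Y) ^ 2 * (6 * ((P + 1 : ℕ) : ℝ) * x *
        (C₁ * Real.log Y) ^ 5 + 4 * (x : ℝ) ^ 2 * (P : ℝ) ^ (81 / 100 : ℝ)) / t ^ 2 =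
        2400 * C₁ ^ 5 / δ₀ ^ 2 * (((P + 1 : ℕ) : ℝ) * Real.log Y ^ 9 / x) +
        1600 / δ₀ ^ 2 * Real.log Y ^ 4 * (P : ℝ) ^ (81 / 100 : ℝ) := by
      rw [ht]
      field_simp
      ring
    rw [e8]
    apply add_le_add
    · have h9 : ((P + 1 : ℕ) : ℝ) ≤ 2 * P := by
        push_cast
        linarith
      have h10 : Real.log Y ^ 9 ≤ 512 * Real.log P ^ 9 := by
        calc Real.log Y ^ 9 ≤ (2 * Real.log P) ^ 9 := pow_le_pow_left₀ hlY0.le hlY2 9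
          _ = _ := by ring
      calc 2400 * C₁ ^ 5 / δ₀ ^ 2 * (((P + 1 : ℕ) : ℝ) * Real.log Y ^ 9 / x) ≤
          2400 * C₁ ^ 5 / δ₀ ^ 2 * ((2 * P) * (512 * Real.log P ^ 9) / x) := by
            apply mul_le_mul_of_nonneg_left _ (by positivity)
            apply div_le_div_of_nonneg_right _ hx0.le
            exact mul_le_mul h9 h10 (by positivity) (by positivity)
        _ = _ := by ring
    · refine le_trans ?_ (e2.trans hPx)
      apply mul_le_mul_of_nonneg_right _ (by positivity)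
      calc 1600 / δ₀ ^ 2 * Real.log Y ^ 4 ≤ 1600 / δ₀ ^ 2 * (2 * Real.log P) ^ 4 := by
            apply mul_le_mul_of_nonneg_left _ (by positivity)
            exact pow_le_pow_left₀ hlY0.le hlY2 4
        _ = _ := by ring
  calc (((Icc 1 P).filter (fun p => p.Prime ∧ ((good p ((P : ℝ) ^ (1 / 11 : ℝ)) x).card : ℝ) <
      δ₀ / 4 * x / Real.log P)).card : ℝ) ≤ (((A1 ∪ A2) ∪ A3).card : ℝ) := by
        exact_mod_cast card_le_card hsub
    _ ≤ A1.card + A2.card + A3.card := by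
        exact_mod_cast (card_union_le (A1 ∪ A2) A3).trans
          (Nat.add_le_add_right (card_union_le A1 A2) _)
    _ ≤ E * (P * Real.log P ^ 9 / x) := by
        rw [hE]
        have : (2400 * C₁ ^ 5 / δ₀ ^ 2 * 1024 + 3) * (P * Real.log P ^ 9 / x) =
          P * Real.log P ^ 9 / x + ((2400 * C₁ ^ 5 / δ₀ ^ 2 * 1024) * (P * Real.log P ^ 9 / x) +
          P * Real.log P ^ 9 / x) + P * Real.log P ^ 9 / x := by ring
        rw [this]
        exact add_le_add (add_le_add c1 c2) c3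

end Pool.Agent.K3h31.LP
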