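import Pool.Agent.K3h31.LP.Pair

/-! The second moment of the remainder. -/

set_option autoImplicit false

open Finset

namespace Pool.Agent.K3h31.LP

/-- the sum over pairs of sets -/
theorem sum_pairs (P : Finset ℕ) (f h : ℕ → ℝ) (hf : ∀ q, 0 ≤ f q) (hh : ∀ q, 0 ≤ h q) :
    ∑ T ∈ P.powerset, ∑ T' ∈ P.powerset, (∏ q ∈ T ∩ T', f q) * ((∏ q ∈ T \ T', h q) *
      ∏ q ∈ T' \ T, h q) ≤ (∏ q ∈ P, (1 + f q)) * ((∏ q ∈ P, (1 + h q)) * ∏ q ∈ P, (1 + h q)) := by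
  classical
  have e1 : ∀ w : ℕ → ℝ, ∏ q ∈ P, (1 + w q) = ∑ T ∈ P.powerset, ∏ q ∈ T, w q := by
    intro w
    rw [prod_one_add]
  rw [e1 f, e1 h, sum_mul_sum, sum_mul_sum]
  set G : (Finset ℕ × Finset ℕ × Finset ℕ) → ℝ := fun z => (∏ q ∈ z.1, f q) *
    ((∏ q ∈ z.2.1, h q) * ∏ q ∈ z.2.2, h q) with hG
  have hG0 : ∀ z, 0 ≤ G z := by
    intro z
    rw [hG]
    exact mul_nonneg (prod_nonneg fun q _ => hf q)
      (mul_nonneg (prod_nonneg fun q _ => hh q) (prod_nonneg fun q _ => hh q))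
  have e2 : ∑ T ∈ P.powerset, ∑ T' ∈ P.powerset, (∏ q ∈ T, f q) * (∑ T'' ∈ P.powerset,
      (∏ q ∈ T', h q) * ∏ q ∈ T'', h q) = ∑ z ∈ P.powerset ×ˢ P.powerset ×ˢ P.powerset, G z := by
    rw [sum_product]
    apply sum_congr rfl
    intro T _
    rw [sum_product]
    apply sum_congr rfl
    intro T' _
    rw [mul_sum]
  rw [e2, ← sum_product']
  set i : (Finset ℕ × Finset ℕ) → (Finset ℕ × Finset ℕ × Finset ℕ) :=
    fun z => (z.1 ∩ z.2, z.1 \ z.2, z.2 \ z.1) with hi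
  have hinj : Set.InjOn i (P.powerset ×ˢ P.powerset : Finset (Finset ℕ × Finset ℕ)) := by
    rintro ⟨A, B⟩ _ ⟨C, D⟩ _ hAB
    rw [hi] at hAB
    simp only [Prod.mk.injEq] at hAB
    obtain ⟨h1, h2, h3⟩ := hAB
    have hA : A = C := by
      rw [← sdiff_union_inter A B, ← sdiff_union_inter C D, h1, h2]
    have hB : B = D := by
      rw [← sdiff_union_inter B A, ← sdiff_union_inter D C, h3, inter_comm B A, inter_comm D C, h1]
    rw [hA, hB]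
  have e3 : ∑ z ∈ P.powerset ×ˢ P.powerset, (∏ q ∈ z.1 ∩ z.2, f q) * ((∏ q ∈ z.1 \ z.2, h q) *
      ∏ q ∈ z.2 \ z.1, h q) = ∑ z ∈ (P.powerset ×ˢ P.powerset).image i, G z := by
    rw [sum_image hinj]
  rw [e3]
  apply sum_le_sum_of_subset_of_nonneg
  · intro z hz
    rw [mem_image] at hz
    obtain ⟨⟨A, B⟩, hAB, rfl⟩ := hz
    rw [mem_product, mem_powerset, mem_powerset] at hAB
    rw [hi, mem_product, mem_product, mem_powerset, mem_powerset, mem_powerset]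
    exact ⟨inter_subset_left.trans hAB.1, sdiff_subset.trans hAB.1, sdiff_subset.trans hAB.2⟩
  · intro z _ _
    exact hG0 z

/-- the number of sets of primes with a small product -/
theorem count_sets (P : Finset ℕ) (hP : ∀ p ∈ P, p.Prime) (D : ℝ) (hD : 0 ≤ D) :
    (((P.powerset).filter (fun T => ((∏ q ∈ T, q : ℕ) : ℝ) ≤ D)).card : ℝ) ≤ D := by
  have h1 : ((P.powerset).filter (fun T => ((∏ q ∈ T, q : ℕ) : ℝ) ≤ D)).card ≤
      (Icc 1 ⌊D⌋₊).card := by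
    apply card_le_card_of_injOn (fun T => ∏ q ∈ T, q)
    · intro T hT
      rw [mem_coe, mem_filter, mem_powerset] at hT
      rw [mem_coe, mem_Icc]
      exact ⟨prod_pos fun q hq => (hP q (hT.1 hq)).pos, Nat.le_floor hT.2⟩
    · intro T hT T' hT' h
      rw [mem_coe, mem_filter, mem_powerset] at hT hT'
      have e1 := Nat.primeFactors_prod (fun p hp => hP p (hT.1 hp))
      have e2 := Nat.primeFactors_prod (fun p hp => hP p (hT'.1 hp))
      rw [← e1, ← e2]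
      exact congrArg Nat.primeFactors h
  rw [Nat.card_Icc, Nat.add_sub_cancel] at h1
  calc (((P.powerset).filter (fun T => ((∏ q ∈ T, q : ℕ) : ℝ) ≤ D)).card : ℝ) ≤ (⌊D⌋₊ : ℝ) := by
        exact_mod_cast h1
    _ ≤ D := Nat.floor_le hD

/-- **The second moment of the remainder.** -/
theorem moment (P : Finset ℕ) (hP : ∀ p ∈ P, p.Prime) (c : Finset ℕ → ℝ) (C D : ℝ) (hC : 0 ≤ C)
    (hD : 0 ≤ D) (hcC : ∀ T, |c T| ≤ C)
    (hcD : ∀ T ⊆ P, c T ≠ 0 → ((∏ p ∈ T, p : ℕ) : ℝ) ≤ D) (x N : ℕ) :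
    ∑ n ∈ range N, (∑ T ∈ P.powerset, c T * Ek x (∏ q ∈ T, q) n) ^ 2 ≤
      C ^ 2 * (6 * N * x * ((∏ q ∈ P, (1 + 1 / (q : ℝ))) * ((∏ q ∈ P, (1 + 2 / (q : ℝ))) *
        ∏ q ∈ P, (1 + 2 / (q : ℝ)))) + 4 * (x : ℝ) ^ 2 * D ^ 2) := by
  have hN0 : (0 : ℝ) ≤ N := Nat.cast_nonneg N
  have hx0 : (0 : ℝ) ≤ x := Nat.cast_nonneg x
  have hprime : ∀ T ∈ P.powerset, ∀ p ∈ T, p.Prime := by
    intro T hT p hp
    rw [mem_powerset] at hT
    exact hP p (hT hp)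
  have h1 : ∑ n ∈ range N, (∑ T ∈ P.powerset, c T * Ek x (∏ q ∈ T, q) n) ^ 2 =
      ∑ T ∈ P.powerset, ∑ T' ∈ P.powerset, c T * c T' *
        ∑ n ∈ range N, Ek x (∏ q ∈ T, q) n * Ek x (∏ q ∈ T', q) n := by
    have h2 : ∀ n ∈ range N, (∑ T ∈ P.powerset, c T * Ek x (∏ q ∈ T, q) n) ^ 2 =
        ∑ T ∈ P.powerset, ∑ T' ∈ P.powerset, c T * c T' *
          (Ek x (∏ q ∈ T, q) n * Ek x (∏ q ∈ T', q) n) := by
      intro n _
      rw [sq, sum_mul_sum]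
      apply sum_congr rfl
      intro T _
      apply sum_congr rfl
      intro T' _
      ring
    rw [sum_congr rfl h2, sum_comm]
    apply sum_congr rfl
    intro T _
    rw [sum_comm]
    apply sum_congr rfl
    intro T' _
    rw [mul_sum]
  rw [h1]
  have h3 : ∀ T ∈ P.powerset, ∀ T' ∈ P.powerset, c T * c T' *
      ∑ n ∈ range N, Ek x (∏ q ∈ T, q) n * Ek x (∏ q ∈ T', q) n ≤
      C ^ 2 * (6 * N * x) * ((∏ q ∈ T ∩ T', (1 / (q : ℝ))) * ((∏ q ∈ T \ T', (2 / (q : ℝ))) *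
        ∏ q ∈ T' \ T, (2 / (q : ℝ)))) + 4 * (x : ℝ) ^ 2 * (|c T| * |c T'|) := by
    intro T hT T' hT'
    have h4 := pair_le x N T T' (hprime T hT) (hprime T' hT')
    set w : ℝ := ((∏ q ∈ T ∩ T', (1 / (q : ℝ))) * ((∏ q ∈ T \ T', (2 / (q : ℝ))) *
        ∏ q ∈ T' \ T, (2 / (q : ℝ)))) with hw
    have hw0 : 0 ≤ w := by positivity
    have h5 : |c T| * |c T'| ≤ C ^ 2 := by
      rw [sq]
      exact mul_le_mul (hcC T) (hcC T') (abs_nonneg _) hC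
    calc c T * c T' * ∑ n ∈ range N, Ek x (∏ q ∈ T, q) n * Ek x (∏ q ∈ T', q) n ≤
        |c T * c T' * ∑ n ∈ range N, Ek x (∏ q ∈ T, q) n * Ek x (∏ q ∈ T', q) n| := le_abs_self _
      _ = |c T| * |c T'| * |∑ n ∈ range N, Ek x (∏ q ∈ T, q) n * Ek x (∏ q ∈ T', q) n| := by
          rw [abs_mul, abs_mul]
      _ ≤ |c T| * |c T'| * (6 * N * x * w + 4 * (x : ℝ) ^ 2) :=
          mul_le_mul_of_nonneg_left h4 (by positivity)
      _ = |c T| * |c T'| * (6 * N * x * w) + 4 * (x : ℝ) ^ 2 * (|c T| * |c T'|) := by ring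
      _ ≤ C ^ 2 * (6 * N * x * w) + 4 * (x : ℝ) ^ 2 * (|c T| * |c T'|) := by
          apply add_le_add _ le_rfl
          exact mul_le_mul_of_nonneg_right h5 (by positivity)
      _ = _ := by ring
  have h6 : ∑ T ∈ P.powerset, |c T| ≤ C * D := by
    have h7 : ∑ T ∈ P.powerset, |c T| =
        ∑ T ∈ (P.powerset).filter (fun T => ((∏ q ∈ T, q : ℕ) : ℝ) ≤ D), |c T| := by
      rw [sum_filter]
      apply sum_congr rfl
      intro T hT
      split_ifs with h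
      · rfl
      · by_contra h8
        have h9 : c T ≠ 0 := by
          intro h10
          rw [h10, abs_zero] at h8
          exact h8 rfl
        exact h (hcD T (mem_powerset.1 hT) h9)
    rw [h7]
    calc ∑ T ∈ (P.powerset).filter (fun T => ((∏ q ∈ T, q : ℕ) : ℝ) ≤ D), |c T| ≤
        ∑ T ∈ (P.powerset).filter (fun T => ((∏ q ∈ T, q : ℕ) : ℝ) ≤ D), C :=
          sum_le_sum fun T _ => hcC T
      _ = ((P.powerset).filter (fun T => ((∏ q ∈ T, q : ℕ) : ℝ) ≤ D)).card * C := by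
          rw [sum_const, nsmul_eq_mul]
      _ ≤ D * C := mul_le_mul_of_nonneg_right (count_sets P hP D hD) hC
      _ = C * D := mul_comm _ _
  have h60 : 0 ≤ ∑ T ∈ P.powerset, |c T| := sum_nonneg fun T _ => abs_nonneg _
  calc ∑ T ∈ P.powerset, ∑ T' ∈ P.powerset, c T * c T' *
        ∑ n ∈ range N, Ek x (∏ q ∈ T, q) n * Ek x (∏ q ∈ T', q) n ≤
      ∑ T ∈ P.powerset, ∑ T' ∈ P.powerset, (C ^ 2 * (6 * N * x) * ((∏ q ∈ T ∩ T', (1 / (q : ℝ))) *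
        ((∏ q ∈ T \ T', (2 / (q : ℝ))) * ∏ q ∈ T' \ T, (2 / (q : ℝ)))) +
        4 * (x : ℝ) ^ 2 * (|c T| * |c T'|)) :=
        sum_le_sum fun T hT => sum_le_sum fun T' hT' => h3 T hT T' hT'
    _ = C ^ 2 * (6 * N * x) * (∑ T ∈ P.powerset, ∑ T' ∈ P.powerset, ((∏ q ∈ T ∩ T', (1 / (q : ℝ))) *
        ((∏ q ∈ T \ T', (2 / (q : ℝ))) * ∏ q ∈ T' \ T, (2 / (q : ℝ))))) +
        4 * (x : ℝ) ^ 2 * ((∑ T ∈ P.powerset, |c T|) * ∑ T' ∈ P.powerset, |c T'|) := by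
        simp_rw [sum_add_distrib, ← mul_sum]
        rw [← sum_mul]
    _ ≤ C ^ 2 * (6 * N * x) * ((∏ q ∈ P, (1 + 1 / (q : ℝ))) * ((∏ q ∈ P, (1 + 2 / (q : ℝ))) *
        ∏ q ∈ P, (1 + 2 / (q : ℝ)))) + 4 * (x : ℝ) ^ 2 * ((C * D) * (C * D)) := by
        apply add_le_add
        · apply mul_le_mul_of_nonneg_left _ (by positivity)
          exact sum_pairs P (fun q => 1 / (q : ℝ)) (fun q => 2 / (q : ℝ)) (fun q => by positivity)
            (fun q => by positivity)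
        · apply mul_le_mul_of_nonneg_left _ (by positivity)
          exact mul_le_mul h6 h6 h60 (mul_nonneg hC hD)
    _ = _ := by ring

end Pool.Agent.K3h31.LP
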