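import Pool.Agent.K3h31.LP.Crt

/-! The covariance of the multipliers for two moduli. -/

set_option autoImplicit false

open Finset

namespace Pool.Agent.K3h31.LP

theorem ak_le (x g u : ℕ) (hg : 0 < g) : (ak x g u : ℝ) ≤ (x : ℝ) / g + 1 := by
  by_cases hc : Nat.Coprime g (2 * u)
  · have h1 := class_count g hg (2 * u) 1 hc.symm x
    have e : ak x g u = ((Icc 1 x).filter (fun k => g ∣ 2 * u * k + 1)).card := by
      unfold ak
      congr 1
      apply filter_congr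
      intro k _
      have e2 : 2 * k * u = 2 * u * k := by ring
      rw [e2]
    rw [e]
    rw [abs_le] at h1
    linarith [h1.2]
  · rw [ak_zero_of_not_cop hc]
    have : (0 : ℝ) ≤ (x : ℝ) / g := by positivity
    push_cast
    linarith

theorem card_u (g k : ℕ) (hg : 0 < g) : ((range g).filter (fun u => g ∣ 2 * k * u + 1)).card ≤ 1 := by
  by_cases h : Nat.Coprime (2 * k) g
  · exact (card_sol g (2 * k) 1 hg h).le
  · have : (range g).filter (fun u => g ∣ 2 * k * u + 1) = ∅ := by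
      rw [filter_eq_empty_iff]
      intro u _ hu
      exact h (Nat.Coprime.coprime_mul_right_right (cop_of_dvd hu)).symm
    rw [this]
    simp

theorem ak_sum (x g : ℕ) (hg : 0 < g) : ∑ u ∈ range g, ak x g u ≤ x := by
  unfold ak
  simp_rw [card_filter]
  rw [sum_comm]
  calc ∑ k ∈ Icc 1 x, ∑ u ∈ range g, (if g ∣ 2 * k * u + 1 then 1 else 0) ≤
      ∑ k ∈ Icc 1 x, 1 := by
        apply sum_le_sum
        intro k _
        have := card_u g k hg
        rw [card_filter] at this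
        exact this
    _ = x := by simp

theorem AA_le1 (x g u : ℕ) (hg : 0 < g) (T : Finset ℕ) (hT : ∀ p ∈ T, p.Prime) (hT2 : 2 ∉ T)
    (hgT : ∀ p ∈ T, Nat.Coprime g p) : |AA x g (∏ q ∈ T, q) u| ≤ 2 * 2 ^ T.card := by
  rw [AA_eq x g u hg T hT hT2 hgT]
  by_cases hc : Nat.Coprime g (2 * u)
  · rw [if_pos hc]
    have := nk_main T hT g u x hg hc hgT
    linarith
  · rw [if_neg hc]
    have h1 : nk T g u x = 0 := by
      have := nk_le T g u x
      rw [ak_zero_of_not_cop hc] at this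
      omega
    rw [h1]
    simp

theorem AA_le2 (x g u : ℕ) (hg : 0 < g) (T : Finset ℕ) (hT : ∀ p ∈ T, p.Prime) (hT2 : 2 ∉ T)
    (hgT : ∀ p ∈ T, Nat.Coprime g p) : |AA x g (∏ q ∈ T, q) u| ≤ ak x g u + (x : ℝ) / g := by
  rw [AA_eq x g u hg T hT hT2 hgT]
  have h1 : (nk T g u x : ℝ) ≤ ak x g u := by exact_mod_cast nk_le T g u x
  have h2 : (0 : ℝ) ≤ nk T g u x := Nat.cast_nonneg _
  have h3 : (0 : ℝ) ≤ (x : ℝ) / g := by positivity
  have hW0 : 0 ≤ ∏ q ∈ T, (1 - 1 / (q : ℝ)) ∧ ∏ q ∈ T, (1 - 1 / (q : ℝ)) ≤ 1 := by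
    constructor
    · apply prod_nonneg
      intro p hp
      have : (1 : ℝ) ≤ p := by exact_mod_cast (hT p hp).one_le
      rw [sub_nonneg, div_le_one (by linarith)]
      exact this
    · apply prod_le_one
      · intro p hp
        have : (1 : ℝ) ≤ p := by exact_mod_cast (hT p hp).one_le
        rw [sub_nonneg, div_le_one (by linarith)]
        exact this
      · intro p hp
        have : (0 : ℝ) ≤ 1 / (p : ℝ) := by positivity
        linarith
  have h4 : 0 ≤ (if Nat.Coprime g (2 * u) then (x : ℝ) / g * ∏ q ∈ T, (1 - 1 / (q : ℝ)) else 0) ∧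
      (if Nat.Coprime g (2 * u) then (x : ℝ) / g * ∏ q ∈ T, (1 - 1 / (q : ℝ)) else 0) ≤ (x : ℝ) / g := by
    split_ifs
    · exact ⟨mul_nonneg h3 hW0.1, mul_le_of_le_one_right h3 hW0.2⟩
    · exact ⟨le_refl 0, h3⟩
  rw [abs_le]
  constructor <;> linarith [h4.1, h4.2]

/-- complete periods -/
theorem full_le (x g : ℕ) (hg : 0 < g) (T T' : Finset ℕ) (hT : ∀ p ∈ T, p.Prime) (hT2 : 2 ∉ T)
    (hgT : ∀ p ∈ T, Nat.Coprime g p) (hT' : ∀ p ∈ T', p.Prime) (hT2' : 2 ∉ T')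
    (hgT' : ∀ p ∈ T', Nat.Coprime g p) :
    |∑ u ∈ range g, AA x g (∏ q ∈ T, q) u * AA x g (∏ q ∈ T', q) u| ≤
      6 * x * (2 ^ T.card * 2 ^ T'.card) := by
  have hgr : (0 : ℝ) < g := by exact_mod_cast hg
  have h2T : (1 : ℝ) ≤ 2 ^ T.card := one_le_pow₀ (by norm_num)
  have h2T' : (1 : ℝ) ≤ 2 ^ T'.card := one_le_pow₀ (by norm_num)
  have h22 : (1 : ℝ) ≤ 2 ^ T.card * 2 ^ T'.card := one_le_mul_of_one_le_of_one_le h2T h2T'
  have hx0 : (0 : ℝ) ≤ x := Nat.cast_nonneg x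
  refine (abs_sum_le_sum_abs _ _).trans ?_
  rcases le_or_gt g x with hgx | hgx
  · have hgxr : (g : ℝ) ≤ x := by exact_mod_cast hgx
    calc ∑ u ∈ range g, |AA x g (∏ q ∈ T, q) u * AA x g (∏ q ∈ T', q) u| ≤
        ∑ u ∈ range g, (2 * 2 ^ T.card * (2 * 2 ^ T'.card) : ℝ) := by
          apply sum_le_sum
          intro u _
          rw [abs_mul]
          exact mul_le_mul (AA_le1 x g u hg T hT hT2 hgT) (AA_le1 x g u hg T' hT' hT2' hgT')
            (abs_nonneg _) (by positivity)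
      _ = 4 * g * (2 ^ T.card * 2 ^ T'.card) := by
          rw [sum_const, card_range, nsmul_eq_mul]
          ring
      _ ≤ _ := by
          apply mul_le_mul_of_nonneg_right _ (by linarith)
          linarith
  · have hgxr : (x : ℝ) ≤ g := by exact_mod_cast hgx.le
    have hxg : (x : ℝ) / g ≤ 1 := by
      rw [div_le_one hgr]
      exact hgxr
    have hxg0 : (0 : ℝ) ≤ (x : ℝ) / g := by positivity
    have hs : (∑ u ∈ range g, (ak x g u : ℝ)) ≤ x := by exact_mod_cast ak_sum x g hg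
    calc ∑ u ∈ range g, |AA x g (∏ q ∈ T, q) u * AA x g (∏ q ∈ T', q) u| ≤
        ∑ u ∈ range g, 3 * ((ak x g u : ℝ) + (x : ℝ) / g) := by
          apply sum_le_sum
          intro u _
          rw [abs_mul]
          have h1 := AA_le2 x g u hg T hT hT2 hgT
          have h2 := AA_le2 x g u hg T' hT' hT2' hgT'
          have h3 := ak_le x g u hg
          have h4 : (0 : ℝ) ≤ ak x g u := Nat.cast_nonneg _
          calc |AA x g (∏ q ∈ T, q) u| * |AA x g (∏ q ∈ T', q) u| ≤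
              3 * (ak x g u + (x : ℝ) / g) := by
                apply mul_le_mul (by linarith) h2 (abs_nonneg _) (by norm_num)
            _ = _ := rfl
      _ = 3 * (∑ u ∈ range g, (ak x g u : ℝ)) + 3 * (g * ((x : ℝ) / g)) := by
          rw [← mul_sum, sum_add_distrib, sum_const, card_range, nsmul_eq_mul]
          ring
      _ = 3 * (∑ u ∈ range g, (ak x g u : ℝ)) + 3 * x := by
          rw [mul_div_cancel₀ _ hgr.ne']
      _ ≤ 6 * x * 1 := by linarith
      _ ≤ _ := mul_le_mul_of_nonneg_left h22 (by linarith)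

theorem abs_Ek_le (x d n : ℕ) : |Ek x d n| ≤ ak x d n + (x : ℝ) / d := by
  unfold Ek
  have h2 : (0 : ℝ) ≤ ak x d n := Nat.cast_nonneg _
  have h3 : (0 : ℝ) ≤ (x : ℝ) / d := by positivity
  split_ifs <;> rw [abs_le] <;> constructor <;> linarith

theorem sum_period_ak (x d b : ℕ) (hd : 0 < d) :
    ∑ n ∈ range (d * b), (ak x d n : ℝ) ≤ b * x := by
  rw [sum_range_mul']
  have hs : (∑ u ∈ range d, (ak x d u : ℝ)) ≤ x := by exact_mod_cast ak_sum x d hd
  calc ∑ u ∈ range d, ∑ m ∈ range b, (ak x d (u + d * m) : ℝ) = ∑ u ∈ range d, b * (ak x d u : ℝ) := by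
        apply sum_congr rfl
        intro u _
        have : ∀ m ∈ range b, (ak x d (u + d * m) : ℝ) = ak x d u := by
          intro m _
          rw [ak_congr x d (u + d * m) u]
          simp [Nat.ModEq]
        rw [sum_congr rfl this, sum_const, card_range, nsmul_eq_mul]
    _ = b * ∑ u ∈ range d, (ak x d u : ℝ) := by rw [mul_sum]
    _ ≤ _ := mul_le_mul_of_nonneg_left hs (Nat.cast_nonneg b)

theorem card_n (d b d' : ℕ) (hdb : Nat.Coprime d b) (hb : b ∣ d') (k k' : ℕ) :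
    ((range (d * b)).filter (fun n => d ∣ 2 * k * n + 1 ∧ d' ∣ 2 * k' * n + 1)).card ≤ 1 := by
  rw [card_le_one]
  intro n hn m hm
  rw [mem_filter, mem_range] at hn hm
  have h1 := sol_unique d (2 * k) 1 (Nat.Coprime.coprime_mul_right_right (cop_of_dvd hn.2.1)).symm
    n m hn.2.1 hm.2.1
  have h2 := sol_unique d' (2 * k') 1 (Nat.Coprime.coprime_mul_right_right (cop_of_dvd hn.2.2)).symm
    n m hn.2.2 hm.2.2
  have h3 : n ≡ m [MOD b] := h2.of_dvd hb
  have h4 := (Nat.modEq_and_modEq_iff_modEq_mul hdb).1 ⟨h1, h3⟩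
  exact Nat.ModEq.eq_of_lt_of_lt h4 hn.1 hm.1

theorem sum_ak_ak (x d b d' : ℕ) (hdb : Nat.Coprime d b) (hb : b ∣ d') :
    ∑ n ∈ range (d * b), ak x d n * ak x d' n ≤ x * x := by
  unfold ak
  simp_rw [card_filter]
  simp_rw [sum_mul_sum]
  rw [sum_comm]
  calc ∑ k ∈ Icc 1 x, ∑ n ∈ range (d * b), ∑ k' ∈ Icc 1 x,
        (if d ∣ 2 * k * n + 1 then 1 else 0) * (if d' ∣ 2 * k' * n + 1 then 1 else 0) =
      ∑ k ∈ Icc 1 x, ∑ k' ∈ Icc 1 x, ∑ n ∈ range (d * b),
        (if d ∣ 2 * k * n + 1 then 1 else 0) * (if d' ∣ 2 * k' * n + 1 then 1 else 0) := by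
        apply sum_congr rfl
        intro k _
        rw [sum_comm]
    _ ≤ ∑ k ∈ Icc 1 x, ∑ k' ∈ Icc 1 x, 1 := by
        apply sum_le_sum
        intro k _
        apply sum_le_sum
        intro k' _
        have := card_n d b d' hdb hb k k'
        rw [card_filter] at this
        refine le_trans (le_of_eq ?_) this
        apply sum_congr rfl
        intro n _
        by_cases h1 : d ∣ 2 * k * n + 1 <;> by_cases h2 : d' ∣ 2 * k' * n + 1 <;> simp [h1, h2]
    _ = x * x := by simp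

/-- the incomplete period -/
theorem rem_le (x g a b : ℕ) (hg : 0 < g) (ha : 0 < a) (hb : 0 < b) (hab : Nat.Coprime a b)
    (hgb : Nat.Coprime g b) :
    ∑ n ∈ range (g * (a * b)), |Ek x (g * a) n * Ek x (g * b) n| ≤ 4 * (x : ℝ) ^ 2 := by
  have e : g * (a * b) = g * a * b := by ring
  have e' : g * (a * b) = g * b * a := by ring
  have hgr : (1 : ℝ) ≤ g := by exact_mod_cast hg
  have har : (0 : ℝ) < a := by exact_mod_cast ha
  have hbr : (0 : ℝ) < b := by exact_mod_cast hb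
  have hx0 : (0 : ℝ) ≤ x := Nat.cast_nonneg x
  have h1 : ∑ n ∈ range (g * (a * b)), (ak x (g * a) n : ℝ) * (ak x (g * b) n : ℝ) ≤ x ^ 2 := by
    rw [e]
    have := sum_ak_ak x (g * a) b (g * b) (Nat.Coprime.mul_left hgb hab) (dvd_mul_left b g)
    have h : ((∑ n ∈ range (g * a * b), ak x (g * a) n * ak x (g * b) n : ℕ) : ℝ) ≤ ((x * x : ℕ) : ℝ) := by
      exact_mod_cast this
    push_cast at h
    rw [sq]
    exact h
  have hxg : (x : ℝ) ^ 2 / g ≤ x ^ 2 := div_le_self (by positivity) hgr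
  have h2 : ∑ n ∈ range (g * (a * b)), (ak x (g * a) n : ℝ) * ((x : ℝ) / ((g * b : ℕ) : ℝ)) ≤ x ^ 2 := by
    rw [← sum_mul, e]
    have := sum_period_ak x (g * a) b (Nat.mul_pos hg ha)
    calc (∑ n ∈ range (g * a * b), (ak x (g * a) n : ℝ)) * ((x : ℝ) / ((g * b : ℕ) : ℝ)) ≤
        (b * x) * ((x : ℝ) / ((g * b : ℕ) : ℝ)) := mul_le_mul_of_nonneg_right this (by positivity)
      _ = (x : ℝ) ^ 2 / g := by
          push_cast
          field_simp
      _ ≤ _ := hxg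
  have h3 : ∑ n ∈ range (g * (a * b)), (ak x (g * b) n : ℝ) * ((x : ℝ) / ((g * a : ℕ) : ℝ)) ≤ x ^ 2 := by
    rw [← sum_mul, e']
    have := sum_period_ak x (g * b) a (Nat.mul_pos hg hb)
    calc (∑ n ∈ range (g * b * a), (ak x (g * b) n : ℝ)) * ((x : ℝ) / ((g * a : ℕ) : ℝ)) ≤
        (a * x) * ((x : ℝ) / ((g * a : ℕ) : ℝ)) := mul_le_mul_of_nonneg_right this (by positivity)
      _ = (x : ℝ) ^ 2 / g := by
          push_cast
          field_simp
      _ ≤ _ := hxg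
  have h4 : ∑ n ∈ range (g * (a * b)), ((x : ℝ) / ((g * a : ℕ) : ℝ)) * ((x : ℝ) / ((g * b : ℕ) : ℝ)) ≤
      x ^ 2 := by
    rw [sum_const, card_range, nsmul_eq_mul]
    calc ((g * (a * b) : ℕ) : ℝ) * (((x : ℝ) / ((g * a : ℕ) : ℝ)) * ((x : ℝ) / ((g * b : ℕ) : ℝ))) =
        (x : ℝ) ^ 2 / g := by
          push_cast
          field_simp
      _ ≤ _ := hxg
  calc ∑ n ∈ range (g * (a * b)), |Ek x (g * a) n * Ek x (g * b) n| ≤
      ∑ n ∈ range (g * (a * b)), (((ak x (g * a) n : ℝ) * (ak x (g * b) n : ℝ) +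
        (ak x (g * a) n : ℝ) * ((x : ℝ) / ((g * b : ℕ) : ℝ))) +
        ((ak x (g * b) n : ℝ) * ((x : ℝ) / ((g * a : ℕ) : ℝ)) +
        ((x : ℝ) / ((g * a : ℕ) : ℝ)) * ((x : ℝ) / ((g * b : ℕ) : ℝ)))) := by
        apply sum_le_sum
        intro n _
        rw [abs_mul]
        calc |Ek x (g * a) n| * |Ek x (g * b) n| ≤ (ak x (g * a) n + (x : ℝ) / ((g * a : ℕ) : ℝ)) *
            (ak x (g * b) n + (x : ℝ) / ((g * b : ℕ) : ℝ)) :=
              mul_le_mul (abs_Ek_le _ _ _) (abs_Ek_le _ _ _) (abs_nonneg _) (by positivity)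
          _ = _ := by ring
    _ ≤ (x ^ 2 + x ^ 2) + (x ^ 2 + x ^ 2) := by
        rw [sum_add_distrib, sum_add_distrib, sum_add_distrib]
        exact add_le_add (add_le_add h1 h2) (add_le_add h3 h4)
    _ = _ := by ring

theorem sum_periodic (f : ℕ → ℝ) (L N : ℕ) (hL : 0 < L) (hf : ∀ n m, f (n + L * m) = f n) (A B : ℝ)
    (hA : |∑ n ∈ range L, f n| ≤ A) (hB : ∑ n ∈ range L, |f n| ≤ B) :
    |∑ n ∈ range N, f n| ≤ (N : ℝ) / L * A + B := by
  have hLr : (0 : ℝ) < L := by exact_mod_cast hL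
  have hA0 : 0 ≤ A := (abs_nonneg _).trans hA
  have e : N = L * (N / L) + N % L := (Nat.div_add_mod N L).symm
  have h1 : ∑ n ∈ range N, f n = ((N / L : ℕ) : ℝ) * ∑ n ∈ range L, f n + ∑ n ∈ range (N % L), f n := by
    conv_lhs => rw [e]
    rw [sum_range_add, sum_range_mul', mul_sum]
    congr 1
    · apply sum_congr rfl
      intro u _
      have : ∀ m ∈ range (N / L), f (u + L * m) = f u := fun m _ => hf u m
      rw [sum_congr rfl this, sum_const, card_range, nsmul_eq_mul]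
    · apply sum_congr rfl
      intro u _
      rw [add_comm (L * (N / L)) u, hf]
  rw [h1]
  refine (abs_add_le _ _).trans ?_
  apply add_le_add
  · rw [abs_mul, abs_of_nonneg (Nat.cast_nonneg _)]
    exact mul_le_mul Nat.cast_div_le hA (abs_nonneg _) (by positivity)
  · refine (abs_sum_le_sum_abs _ _).trans ?_
    refine le_trans ?_ hB
    apply sum_le_sum_of_subset_of_nonneg
    · exact range_subset_range.2 (Nat.mod_lt _ hL).le
    · intro i _ _
      exact abs_nonneg _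

/-- **The covariance for two moduli.** -/
theorem pair_le (x N : ℕ) (T T' : Finset ℕ) (hT : ∀ p ∈ T, p.Prime) (hT' : ∀ p ∈ T', p.Prime) :
    |∑ n ∈ range N, Ek x (∏ q ∈ T, q) n * Ek x (∏ q ∈ T', q) n| ≤
      6 * N * x * ((∏ q ∈ T ∩ T', (1 / (q : ℝ))) * ((∏ q ∈ T \ T', (2 / (q : ℝ))) *
        ∏ q ∈ T' \ T, (2 / (q : ℝ)))) + 4 * (x : ℝ) ^ 2 := by
  have hR0 : 0 ≤ 6 * (N : ℝ) * x * ((∏ q ∈ T ∩ T', (1 / (q : ℝ))) * ((∏ q ∈ T \ T', (2 / (q : ℝ))) *
        ∏ q ∈ T' \ T, (2 / (q : ℝ)))) + 4 * (x : ℝ) ^ 2 := by positivity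
  by_cases h2 : 2 ∈ T
  · have : ∀ n ∈ range N, Ek x (∏ q ∈ T, q) n * Ek x (∏ q ∈ T', q) n = 0 := by
      intro n _
      rw [Ek_zero_of_even (d := ∏ q ∈ T, q) (dvd_prod_of_mem (fun q => q) h2), zero_mul]
    rw [sum_eq_zero this, abs_zero]
    exact hR0
  by_cases h2' : 2 ∈ T'
  · have : ∀ n ∈ range N, Ek x (∏ q ∈ T, q) n * Ek x (∏ q ∈ T', q) n = 0 := by
      intro n _
      rw [Ek_zero_of_even (d := ∏ q ∈ T', q) (dvd_prod_of_mem (fun q => q) h2'), mul_zero]
    rw [sum_eq_zero this, abs_zero]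
    exact hR0
  set g : ℕ := ∏ q ∈ T ∩ T', q with hgdef
  set a : ℕ := ∏ q ∈ T \ T', q with hadef
  set b : ℕ := ∏ q ∈ T' \ T, q with hbdef
  have hpos : ∀ S : Finset ℕ, (∀ p ∈ S, p.Prime) → 0 < ∏ q ∈ S, q :=
    fun S hS => prod_pos fun q hq => (hS q hq).pos
  have p1 : ∀ p ∈ T ∩ T', p.Prime := fun p hp => hT p (mem_inter.1 hp).1
  have p2 : ∀ p ∈ T \ T', p.Prime := fun p hp => hT p (mem_sdiff.1 hp).1
  have p3 : ∀ p ∈ T' \ T, p.Prime := fun p hp => hT' p (mem_sdiff.1 hp).1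
  have hg : 0 < g := hpos _ p1
  have ha : 0 < a := hpos _ p2
  have hb : 0 < b := hpos _ p3
  have hcop : ∀ (S S' : Finset ℕ), (∀ p ∈ S, p.Prime) → (∀ p ∈ S', p.Prime) → Disjoint S S' →
      ∀ p ∈ S', Nat.Coprime (∏ q ∈ S, q) p := by
    intro S S' hS hS' hd p hp
    apply Nat.Coprime.prod_left
    intro q hq
    rw [Nat.coprime_primes (hS q hq) (hS' p hp)]
    rintro rfl
    exact (disjoint_left.1 hd) hq hp
  have d12 : Disjoint (T ∩ T') (T \ T') := by
    rw [disjoint_left]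
    intro p hp hp'
    exact (mem_sdiff.1 hp').2 (mem_inter.1 hp).2
  have d13 : Disjoint (T ∩ T') (T' \ T) := by
    rw [disjoint_left]
    intro p hp hp'
    exact (mem_sdiff.1 hp').2 (mem_inter.1 hp).1
  have d23 : Disjoint (T \ T') (T' \ T) := by
    rw [disjoint_left]
    intro p hp hp'
    exact (mem_sdiff.1 hp').2 (mem_sdiff.1 hp).1
  have e1 : ∏ q ∈ T, q = g * a := by
    rw [hgdef, hadef, ← prod_union d12]
    congr 1
    ext q
    rw [mem_union, mem_inter, mem_sdiff]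
    tauto
  have e2 : ∏ q ∈ T', q = g * b := by
    rw [hgdef, hbdef, ← prod_union d13]
    congr 1
    ext q
    rw [mem_union, mem_inter, mem_sdiff]
    tauto
  have hab : Nat.Coprime a b := Nat.Coprime.prod_right (hcop _ _ p2 p3 d23)
  have hgb : Nat.Coprime g b := Nat.Coprime.prod_right (hcop _ _ p1 p3 d13)
  rw [e1, e2]
  have hL : 0 < g * (a * b) := Nat.mul_pos hg (Nat.mul_pos ha hb)
  have n2 : 2 ∉ T \ T' := fun h => h2 (mem_sdiff.1 h).1
  have n3 : 2 ∉ T' \ T := fun h => h2' (mem_sdiff.1 h).1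
  have key := sum_periodic (fun n => Ek x (g * a) n * Ek x (g * b) n) (g * (a * b)) N hL (by
    intro n m
    show Ek x (g * a) (n + g * (a * b) * m) * Ek x (g * b) (n + g * (a * b) * m) = _
    rw [Ek_congr x (g * a) (n + g * (a * b) * m) n, Ek_congr x (g * b) (n + g * (a * b) * m) n]
    · have h : n + g * (a * b) * m ≡ n + 0 [MOD g * b] := by
        apply Nat.ModEq.add_left
        exact (Nat.modEq_zero_iff_dvd).2 ⟨a * m, by ring⟩
      simpa using h
    · have h : n + g * (a * b) * m ≡ n + 0 [MOD g * a] := by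
        apply Nat.ModEq.add_left
        exact (Nat.modEq_zero_iff_dvd).2 ⟨b * m, by ring⟩
      simpa using h)
    (6 * x * (2 ^ (T \ T').card * 2 ^ (T' \ T).card)) (4 * (x : ℝ) ^ 2) (by
      show |∑ n ∈ range (g * (a * b)), Ek x (g * a) n * Ek x (g * b) n| ≤ _
      rw [full_period x g a b ha hb hab]
      exact full_le x g hg _ _ p2 n2 (hcop _ _ p1 p2 d12) p3 n3 (hcop _ _ p1 p3 d13))
    (rem_le x g a b hg ha hb hab hgb)
  refine key.trans (le_of_eq ?_)
  congr 1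
  have f1 : ∏ q ∈ T ∩ T', (1 / (q : ℝ)) = 1 / (g : ℝ) := by
    rw [prod_div_distrib, prod_const_one, hgdef]
    push_cast
    rfl
  have f2 : ∏ q ∈ T \ T', (2 / (q : ℝ)) = 2 ^ (T \ T').card / (a : ℝ) := by
    rw [prod_div_distrib, prod_const, hadef]
    push_cast
    rfl
  have f3 : ∏ q ∈ T' \ T, (2 / (q : ℝ)) = 2 ^ (T' \ T).card / (b : ℝ) := by
    rw [prod_div_distrib, prod_const, hbdef]
    push_cast
    rfl
  rw [f1, f2, f3]
  have hgr : (g : ℝ) ≠ 0 := by exact_mod_cast hg.ne'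
  have har : (a : ℝ) ≠ 0 := by exact_mod_cast ha.ne'
  have hbr : (b : ℝ) ≠ 0 := by exact_mod_cast hb.ne'
  push_cast
  field_simp

end Pool.Agent.K3h31.LP
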