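import Pool.Agent.K3h31.LP.Cnt

/-! Multipliers `k ≤ x` with `g ∣ 2 k u + 1`, prime to a set of primes. -/

set_option autoImplicit false

open Finset

namespace Pool.Agent.K3h31.LP

/-- `s ↦ c s + b` takes every residue class modulo `d` exactly once -/
theorem sol_unique (d c b : ℕ) (h : Nat.Coprime c d) (s t : ℕ)
    (hs : d ∣ c * s + b) (ht : d ∣ c * t + b) : s ≡ t [MOD d] := by
  have h1 : c * s + b ≡ c * t + b [MOD d] :=
    ((Nat.modEq_zero_iff_dvd).2 hs).trans ((Nat.modEq_zero_iff_dvd).2 ht).symm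
  have h2 : c * s ≡ c * t [MOD d] := Nat.ModEq.add_right_cancel' b h1
  exact Nat.ModEq.cancel_left_of_coprime (by rwa [Nat.coprime_comm] at h) h2

theorem card_sol (d c b : ℕ) (hd : 0 < d) (h : Nat.Coprime c d) :
    ((range d).filter (fun s => d ∣ c * s + b)).card = 1 := by
  obtain ⟨s, hs, hsd⟩ := exists_sol d c b hd h
  rw [card_eq_one]
  refine ⟨s, ?_⟩
  ext t
  rw [mem_filter, mem_range, mem_singleton]
  constructor
  · rintro ⟨h1, h2⟩
    have h3 := sol_unique d c b h t s h2 hsd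
    exact Nat.ModEq.eq_of_lt_of_lt h3 h1 hs
  · rintro rfl
    exact ⟨hs, hsd⟩

/-- a residue class modulo `g` has `x / g + O(1)` elements in `[1, x]` -/
theorem class_count (g : ℕ) (hg : 0 < g) (c b : ℕ) (h : Nat.Coprime c g) (x : ℕ) :
    |(((Icc 1 x).filter (fun k => g ∣ c * k + b)).card : ℝ) - (x : ℝ) / g| ≤ 1 := by
  obtain ⟨s, hs, hsd⟩ := exists_sol g c b hg h
  have e : (Icc 1 x).filter (fun k => g ∣ c * k + b) = (Ioc 0 x).filter (fun k => k ≡ s [MOD g]) := by
    ext k
    rw [mem_filter, mem_filter, mem_Icc, mem_Ioc]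
    constructor
    · rintro ⟨h1, h2⟩
      exact ⟨by omega, sol_unique g c b h k s h2 hsd⟩
    · rintro ⟨h1, h2⟩
      refine ⟨by omega, ?_⟩
      rw [modEq_dvd_iff ((h2.mul_left c).add_right b)]
      exact hsd
  rw [e]
  have h1 := Nat.Ioc_filter_modEq_card 0 x hg s
  have hgq : (0 : ℚ) < g := by exact_mod_cast hg
  have e2 : ((x : ℚ) - s) / g = (((0 : ℕ) : ℚ) - s) / g + x / g := by
    push_cast
    ring
  have hxg : (0 : ℚ) ≤ (x : ℚ) / g := by positivity
  rw [max_eq_left (by
    rw [sub_nonneg]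
    apply Int.floor_le_floor
    rw [e2]
    linarith)] at h1
  have f1 := Int.floor_le (((x : ℚ) - s) / g)
  have f2 := Int.lt_floor_add_one (((x : ℚ) - s) / g)
  have f3 := Int.floor_le ((((0 : ℕ) : ℚ) - s) / g)
  have f4 := Int.lt_floor_add_one ((((0 : ℕ) : ℚ) - s) / g)
  have h2 : |(((Ioc 0 x).filter (fun k => k ≡ s [MOD g])).card : ℚ) - (x : ℚ) / g| ≤ 1 := by
    have h3 : (((Ioc 0 x).filter (fun k => k ≡ s [MOD g])).card : ℚ) =
        (⌊((x : ℚ) - s) / g⌋ : ℚ) - (⌊(((0 : ℕ) : ℚ) - s) / g⌋ : ℚ) := by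
      exact_mod_cast h1
    rw [h3, abs_le]
    constructor <;> linarith
  have h4 : ((|(((Ioc 0 x).filter (fun k => k ≡ s [MOD g])).card : ℚ) - (x : ℚ) / g| : ℚ) : ℝ) ≤
      ((1 : ℚ) : ℝ) := by exact_mod_cast h2
  push_cast at h4
  exact h4

/-- the number of the `k ≤ x` with `g ∣ 2 k u + 1` which are prime to all elements of `T` -/
def nk (T : Finset ℕ) (g u x : ℕ) : ℕ :=
  ((Icc 1 x).filter (fun k => g ∣ 2 * k * u + 1 ∧ ∀ q ∈ T, ¬ q ∣ k)).card

theorem nk_le (T : Finset ℕ) (g u x : ℕ) : nk T g u x ≤ ak x g u := by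
  unfold nk ak
  apply card_le_card
  intro k hk
  rw [mem_filter] at *
  exact ⟨hk.1, hk.2.1⟩

/-- the multiples of `q` -/
theorem nk_insert (T : Finset ℕ) (q : ℕ) (hq : q.Prime) (hT : ∀ p ∈ T, p.Prime) (hqT : q ∉ T)
    (g u x : ℕ) : nk T g u x = nk (insert q T) g u x + nk T g (q * u) (x / q) := by
  have h1 : nk T g u x = ((Icc 1 x).filter (fun k => (g ∣ 2 * k * u + 1 ∧ ∀ p ∈ T, ¬ p ∣ k) ∧
      ¬ q ∣ k)).card + ((Icc 1 x).filter (fun k => (g ∣ 2 * k * u + 1 ∧ ∀ p ∈ T, ¬ p ∣ k) ∧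
      q ∣ k)).card := by
    unfold nk
    rw [← card_filter_add_card_filter_not (s := (Icc 1 x).filter
      (fun k => g ∣ 2 * k * u + 1 ∧ ∀ p ∈ T, ¬ p ∣ k)) (fun k => ¬ q ∣ k), filter_filter,
      filter_filter]
    simp only [not_not]
  rw [h1]
  congr 1
  · unfold nk
    congr 1
    apply filter_congr
    intro k _
    constructor
    · rintro ⟨⟨h2, h3⟩, h4⟩
      refine ⟨h2, fun p hp => ?_⟩
      rw [mem_insert] at hp
      rcases hp with rfl | hp
      · exact h4
      · exact h3 p hp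
    · rintro ⟨h2, h3⟩
      exact ⟨⟨h2, fun p hp => h3 p (mem_insert_of_mem hp)⟩, h3 q (mem_insert_self q T)⟩
  · unfold nk
    symm
    apply card_bij (fun j _ => q * j)
    · intro j hj
      rw [mem_filter, mem_Icc] at *
      obtain ⟨⟨h2, h3⟩, h4, h5⟩ := hj
      refine ⟨⟨Nat.mul_pos hq.pos h2, ?_⟩, ⟨?_, ?_⟩, dvd_mul_right q j⟩
      · calc q * j ≤ q * (x / q) := Nat.mul_le_mul_left q h3
          _ ≤ x := Nat.mul_div_le x q
      · have e : 2 * (q * j) * u = 2 * j * (q * u) := by ring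
        rw [e]
        exact h4
      · intro p hp hd
        rcases (hT p hp).dvd_mul.1 hd with h6 | h6
        · rw [(Nat.prime_dvd_prime_iff_eq (hT p hp) hq)] at h6
          rw [h6] at hp
          exact hqT hp
        · exact h5 p hp h6
    · intro i _ j _ hij
      exact Nat.eq_of_mul_eq_mul_left hq.pos hij
    · intro k hk
      rw [mem_filter, mem_Icc] at hk
      obtain ⟨⟨h2, h3⟩, ⟨h4, h5⟩, j, rfl⟩ := hk
      refine ⟨j, ?_, rfl⟩
      rw [mem_filter, mem_Icc]
      refine ⟨⟨?_, ?_⟩, ?_, ?_⟩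
      · rcases Nat.eq_zero_or_pos j with h | h
        · rw [h] at h2
          omega
        · exact h
      · rw [Nat.le_div_iff_mul_le hq.pos]
        rw [mul_comm]
        exact h3
      · have e : 2 * j * (q * u) = 2 * (q * j) * u := by ring
        rw [e]
        exact h4
      · intro p hp hd
        exact h5 p hp (Dvd.dvd.mul_left hd q)

/-- the expected number of the `k ≤ x` with `g ∣ 2 k u + 1` prime to `T` -/
theorem nk_main (T : Finset ℕ) : ∀ (_ : ∀ p ∈ T, p.Prime) (g u x : ℕ) (_ : 0 < g)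
    (_ : Nat.Coprime g (2 * u)) (_ : ∀ p ∈ T, Nat.Coprime g p),
    |(nk T g u x : ℝ) - (x : ℝ) / g * ∏ q ∈ T, (1 - 1 / (q : ℝ))| ≤ 2 * 2 ^ T.card - 1 := by
  induction T using Finset.induction_on with
  | empty =>
    intro _ g u x hg hgu _
    have h1 := class_count g hg (2 * u) 1 hgu.symm x
    have e : nk ∅ g u x = ((Icc 1 x).filter (fun k => g ∣ 2 * u * k + 1)).card := by
      unfold nk
      congr 1
      apply filter_congr
      intro k _
      have e2 : 2 * k * u = 2 * u * k := by ring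
      rw [e2]
      simp
    rw [e, prod_empty, mul_one, card_empty, pow_zero]
    linarith
  | insert q T hqT ih =>
    intro hT g u x hg hgu hgT
    have hq : q.Prime := hT q (mem_insert_self q T)
    have hq0 : (0 : ℝ) < q := by exact_mod_cast hq.pos
    have hq1 : (1 : ℝ) ≤ q := by exact_mod_cast hq.one_le
    have hT' : ∀ p ∈ T, p.Prime := fun p hp => hT p (mem_insert_of_mem hp)
    have hgr : (1 : ℝ) ≤ g := by exact_mod_cast hg
    have h1 := ih hT' g u x hg hgu (fun p hp => hgT p (mem_insert_of_mem hp))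
    have hgq := hgT q (mem_insert_self q T)
    have h2 := ih hT' g (q * u) (x / q) hg (by
      have e : 2 * (q * u) = q * (2 * u) := by ring
      rw [e]
      exact Nat.Coprime.mul_right hgq hgu) (fun p hp => hgT p (mem_insert_of_mem hp))
    have h3 := nk_insert T q hq hT' hqT g u x
    have h3r : (nk T g u x : ℝ) = nk (insert q T) g u x + nk T g (q * u) (x / q) := by
      exact_mod_cast h3
    rw [prod_insert hqT, card_insert_of_notMem hqT, pow_succ]
    set W : ℝ := ∏ q ∈ T, (1 - 1 / (q : ℝ)) with hW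
    have hW0 : 0 ≤ W ∧ W ≤ 1 := by
      constructor
      · apply prod_nonneg
        intro p hp
        have : (1 : ℝ) ≤ p := by exact_mod_cast (hT' p hp).one_le
        rw [sub_nonneg, div_le_one (by linarith)]
        exact this
      · apply prod_le_one
        · intro p hp
          have : (1 : ℝ) ≤ p := by exact_mod_cast (hT' p hp).one_le
          rw [sub_nonneg, div_le_one (by linarith)]
          exact this
        · intro p hp
          have : (0 : ℝ) ≤ 1 / (p : ℝ) := by positivity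
          linarith
    -- the floor
    have h4 : |((x / q : ℕ) : ℝ) - (x : ℝ) / q| ≤ 1 := by
      have h5 : ((x / q : ℕ) : ℝ) ≤ (x : ℝ) / q := Nat.cast_div_le
      have h6 : (x : ℝ) / q < ((x / q : ℕ) : ℝ) + 1 := by
        rw [div_lt_iff₀ hq0]
        have := Nat.lt_div_mul_add (a := x) hq.pos
        have h7 : (x : ℝ) < ((x / q : ℕ) : ℝ) * q + q := by exact_mod_cast this
        linarith
      rw [abs_le]
      constructor <;> linarith
    have h5 : |((x / q : ℕ) : ℝ) / g * W - (x : ℝ) / q / g * W| ≤ 1 := by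
      have e : ((x / q : ℕ) : ℝ) / g * W - (x : ℝ) / q / g * W =
          (((x / q : ℕ) : ℝ) - (x : ℝ) / q) * (W / g) := by ring
      rw [e, abs_mul, abs_of_nonneg (div_nonneg hW0.1 (by linarith))]
      calc |((x / q : ℕ) : ℝ) - (x : ℝ) / q| * (W / g) ≤ 1 * 1 := by
            apply mul_le_mul h4 _ (div_nonneg hW0.1 (by linarith)) (by norm_num)
            rw [div_le_one (by linarith)]
            linarith [hW0.2]
        _ = 1 := by norm_num
    have e6 : (x : ℝ) / g * ((1 - 1 / (q : ℝ)) * W) = x / g * W - x / q / g * W := by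
      field_simp
    rw [e6]
    have h7 : (nk (insert q T) g u x : ℝ) - (x / g * W - x / q / g * W) =
        ((nk T g u x : ℝ) - x / g * W) - ((nk T g (q * u) (x / q) : ℝ) -
          ((x / q : ℕ) : ℝ) / g * W) - (((x / q : ℕ) : ℝ) / g * W - (x : ℝ) / q / g * W) := by
      rw [h3r]
      ring
    rw [h7]
    rw [abs_le] at h1 h2 h5 ⊢
    constructor <;> linarith [h1.1, h1.2, h2.1, h2.2, h5.1, h5.2]

end Pool.Agent.K3h31.LP
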