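import Pool.Agent.Helper256.KM.Mertens

/-! Products over primes; powers of logarithms. -/

set_option autoImplicit false

open Finset Filter

namespace Pool.Agent.K3h31.LP

theorem sum_inv_sq (Y : ℕ) (P : Finset ℕ) (hP : P ⊆ (Icc 1 Y).filter Nat.Prime) :
    ∑ p ∈ P, 1 / (p : ℝ) ^ 2 ≤ 1 := by
  have h1 : P ⊆ Ioc 1 (max 1 Y) := by
    intro p hp
    have := hP hp
    rw [mem_filter, mem_Icc] at this
    rw [mem_Ioc]
    exact ⟨this.2.one_lt, this.1.2.trans (le_max_right _ _)⟩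
  calc ∑ p ∈ P, 1 / (p : ℝ) ^ 2 ≤ ∑ p ∈ Ioc 1 (max 1 Y), 1 / (p : ℝ) ^ 2 :=
        sum_le_sum_of_subset_of_nonneg h1 (fun i _ _ => by positivity)
    _ = ∑ p ∈ Ioc 1 (max 1 Y), ((p : ℝ) ^ 2)⁻¹ := by
        apply sum_congr rfl
        intro p _
        rw [one_div]
    _ ≤ ((1 : ℕ) : ℝ)⁻¹ - ((max 1 Y : ℕ) : ℝ)⁻¹ :=
        sum_Ioc_inv_sq_le_sub one_ne_zero (le_max_left _ _)
    _ ≤ 1 := by
        have : (0 : ℝ) ≤ ((max 1 Y : ℕ) : ℝ)⁻¹ := by positivity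
        push_cast at this ⊢
        linarith

theorem sum_inv_le : ∃ C : ℝ, ∀ Y : ℕ, 3 ≤ Y → ∀ P : Finset ℕ, P ⊆ (Icc 1 Y).filter Nat.Prime →
    ∑ p ∈ P, 1 / (p : ℝ) ≤ Real.log (Real.log Y) + C := by
  obtain ⟨C, hC⟩ := Pool.Agent.Helper256.KM.mertens_inv
  refine ⟨C, fun Y hY P hP => ?_⟩
  have h1 := (abs_le.1 (hC Y hY)).2
  have h2 : ∑ p ∈ P, 1 / (p : ℝ) ≤ ∑ p ∈ (Icc 1 Y).filter Nat.Prime, 1 / (p : ℝ) :=
    sum_le_sum_of_subset_of_nonneg hP (fun i _ _ => by positivity)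
  linarith

theorem loglog {Y : ℕ} (hY : 3 ≤ Y) : Real.exp (Real.log (Real.log Y)) = Real.log Y := by
  apply Real.exp_log
  apply Real.log_pos
  have : (3 : ℝ) ≤ Y := by exact_mod_cast hY
  linarith

theorem prod_up : ∃ C : ℝ, 0 < C ∧ ∀ Y : ℕ, 3 ≤ Y → ∀ P : Finset ℕ,
    P ⊆ (Icc 1 Y).filter Nat.Prime → ∏ p ∈ P, (1 + 1 / (p : ℝ)) ≤ C * Real.log Y := by
  obtain ⟨C, hC⟩ := sum_inv_le
  refine ⟨Real.exp C, Real.exp_pos C, fun Y hY P hP => ?_⟩
  calc ∏ p ∈ P, (1 + 1 / (p : ℝ)) ≤ ∏ p ∈ P, Real.exp (1 / (p : ℝ)) := by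
        apply Finset.prod_le_prod
        · intro p _
          positivity
        · intro p _
          have := Real.add_one_le_exp (1 / (p : ℝ))
          linarith
    _ = Real.exp (∑ p ∈ P, 1 / (p : ℝ)) := (Real.exp_sum _ _).symm
    _ ≤ Real.exp (Real.log (Real.log Y) + C) := Real.exp_le_exp.2 (hC Y hY P hP)
    _ = Real.exp C * Real.log Y := by
        rw [Real.exp_add, loglog hY, mul_comm]

theorem prod_up2 (P : Finset ℕ) : ∏ p ∈ P, (1 + 2 / (p : ℝ)) ≤ (∏ p ∈ P, (1 + 1 / (p : ℝ))) ^ 2 := by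
  rw [← prod_pow]
  apply Finset.prod_le_prod
  · intro p _
    positivity
  · intro p _
    have h : (0 : ℝ) ≤ (1 / (p : ℝ)) ^ 2 := by positivity
    have e : (1 + 1 / (p : ℝ)) ^ 2 = 1 + 2 / (p : ℝ) + (1 / (p : ℝ)) ^ 2 := by ring
    rw [e]
    linarith

theorem prod_low : ∃ c : ℝ, 0 < c ∧ ∀ Y : ℕ, 3 ≤ Y → ∀ P : Finset ℕ,
    P ⊆ (Icc 1 Y).filter Nat.Prime → c / Real.log Y ≤ ∏ p ∈ P, (1 - 1 / (p : ℝ)) := by
  obtain ⟨C, hC⟩ := sum_inv_le
  refine ⟨Real.exp (-(C + 2)), Real.exp_pos _, fun Y hY P hP => ?_⟩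
  have h1 : ∀ p ∈ P, Real.exp (-(1 / (p : ℝ) + 2 * (1 / (p : ℝ) ^ 2))) ≤ 1 - 1 / (p : ℝ) := by
    intro p hp
    have h2 := hP hp
    rw [mem_filter] at h2
    have h3 : (2 : ℝ) ≤ p := by exact_mod_cast h2.2.two_le
    have hp0 : (0 : ℝ) < p := by linarith
    have h4 : 0 < 1 - 1 / (p : ℝ) := by
      rw [sub_pos, div_lt_one hp0]
      linarith
    have h5 := Real.one_sub_inv_le_log_of_pos h4
    have h6 : -(1 / (p : ℝ) + 2 * (1 / (p : ℝ) ^ 2)) ≤ 1 - (1 - 1 / (p : ℝ))⁻¹ := by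
      have e : 1 - (1 - 1 / (p : ℝ))⁻¹ = -(1 / ((p : ℝ) - 1)) := by
        have : (p : ℝ) - 1 ≠ 0 := by linarith
        field_simp
        ring
      rw [e, neg_le_neg_iff]
      have e2 : 1 / (p : ℝ) + 2 * (1 / (p : ℝ) ^ 2) = (p + 2) / (p : ℝ) ^ 2 := by
        field_simp
      rw [e2, div_le_div_iff₀ (by linarith) (by positivity)]
      nlinarith
    calc Real.exp (-(1 / (p : ℝ) + 2 * (1 / (p : ℝ) ^ 2))) ≤
        Real.exp (Real.log (1 - 1 / (p : ℝ))) := Real.exp_le_exp.2 (h6.trans h5)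
      _ = _ := Real.exp_log h4
  have hlY : 0 < Real.log Y := by
    apply Real.log_pos
    have : (3 : ℝ) ≤ Y := by exact_mod_cast hY
    linarith
  calc Real.exp (-(C + 2)) / Real.log Y = Real.exp (-(Real.log (Real.log Y) + C + 2 * 1)) := by
        rw [div_eq_iff hlY.ne']
        rw [show -(Real.log (Real.log Y) + C + 2 * 1) = -(C + 2) - Real.log (Real.log Y) by ring,
          Real.exp_sub, loglog hY]
        field_simp
    _ ≤ Real.exp (∑ p ∈ P, -(1 / (p : ℝ) + 2 * (1 / (p : ℝ) ^ 2))) := by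
        apply Real.exp_le_exp.2
        rw [sum_neg_distrib, neg_le_neg_iff, sum_add_distrib, ← mul_sum]
        have := hC Y hY P hP
        have h7 := sum_inv_sq Y P hP
        linarith
    _ = ∏ p ∈ P, Real.exp (-(1 / (p : ℝ) + 2 * (1 / (p : ℝ) ^ 2))) := Real.exp_sum _ _
    _ ≤ _ := Finset.prod_le_prod (fun p _ => (Real.exp_pos _).le) h1

/-- powers of logarithms are smaller than powers -/
theorem log_pow_le (C : ℝ) (m : ℕ) (a b : ℝ) (hab : a < b) :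
    ∀ᶠ P : ℕ in atTop, C * Real.log P ^ m * (P : ℝ) ^ a ≤ (P : ℝ) ^ b := by
  have h1 := isLittleO_log_rpow_rpow_atTop ((m : ℕ) : ℝ) (show 0 < b - a by linarith)
  have h2 := h1.bound (show (0 : ℝ) < 1 / (|C| + 1) by positivity)
  have h3 := tendsto_natCast_atTop_atTop.eventually (h2.and (eventually_ge_atTop (1 : ℝ)))
  filter_upwards [h3] with P hP
  obtain ⟨h4, h5⟩ := hP
  have hP0 : (0 : ℝ) < P := by linarith
  have hl : 0 ≤ Real.log P := Real.log_nonneg h5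
  rw [Real.rpow_natCast, Real.norm_of_nonneg (by positivity), Real.norm_of_nonneg (by positivity)] at h4
  have h6 : C * Real.log P ^ m ≤ (P : ℝ) ^ (b - a) := by
    calc C * Real.log P ^ m ≤ (|C| + 1) * Real.log P ^ m := by
          apply mul_le_mul_of_nonneg_right _ (by positivity)
          linarith [le_abs_self C]
      _ ≤ (|C| + 1) * (1 / (|C| + 1) * (P : ℝ) ^ (b - a)) :=
          mul_le_mul_of_nonneg_left h4 (by positivity)
      _ = _ := by field_simp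
  calc C * Real.log P ^ m * (P : ℝ) ^ a ≤ (P : ℝ) ^ (b - a) * (P : ℝ) ^ a :=
        mul_le_mul_of_nonneg_right h6 (by positivity)
    _ = _ := by
        rw [← Real.rpow_add hP0]
        congr 1
        ring

end Pool.Agent.K3h31.LP
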