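import Pool.Agent.K3h31.LP.Prod
import Pool.Agent.Y882.KW.Alm

/-! The weighted linear sieve for densities `1 / p`. -/

set_option autoImplicit false

open Finset Filter

namespace Pool.Agent.K3h31.LP

open Pool.Agent.W23.DC
open Pool.Agent.Y882
open Pool.Agent.Y882.PX
open Pool.Agent.Y882.KW

theorem pr_facts {Y : ℕ} (hY : 2 ≤ Y) {u v : ℝ} {p : ℕ} (hp : p ∈ pr Y u v) :
    p.Prime ∧ p ≤ Y ∧ (Y : ℝ) ^ u ≤ p ∧ (p : ℝ) < (Y : ℝ) ^ v := by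
  unfold pr at hp
  rw [mem_filter, mem_Icc] at hp
  refine ⟨hp.2.1, hp.1.2, ?_, (tt_lt Y p v hY hp.2.1.pos).1 hp.2.2.2⟩
  by_contra h
  push Not at h
  exact absurd hp.2.2.1 (not_le.2 ((tt_lt Y p u hY hp.2.1.pos).2 h))

/-- the sum of the inverse squares of the primes `p ≥ Y ^ u` -/
theorem pr_sq {Y : ℕ} (hY : 2 ≤ Y) (u v : ℝ) (hu : (2 : ℝ) ≤ (Y : ℝ) ^ u) :
    ∑ p ∈ pr Y u v, 1 / (p : ℝ) ^ 2 ≤ 2 / (Y : ℝ) ^ u := by
  set a : ℕ := ⌈(Y : ℝ) ^ u⌉₊ - 1 with ha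
  have hceil := Nat.le_ceil ((Y : ℝ) ^ u)
  have h2 : 2 ≤ ⌈(Y : ℝ) ^ u⌉₊ := by
    have : (2 : ℝ) ≤ (⌈(Y : ℝ) ^ u⌉₊ : ℝ) := hu.trans hceil
    exact_mod_cast this
  have ha1 : a ≠ 0 := by omega
  have har : (Y : ℝ) ^ u - 1 ≤ a := by
    rw [ha, Nat.cast_sub (by omega)]
    push_cast
    linarith
  have ha2 : (Y : ℝ) ^ u / 2 ≤ a := by linarith
  have ha0 : (0 : ℝ) < a := by exact_mod_cast Nat.pos_of_ne_zero ha1
  have hsub : pr Y u v ⊆ Ioc a (max a Y) := by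
    intro p hp
    obtain ⟨h3, h4, h5, h6⟩ := pr_facts hY hp
    rw [mem_Ioc]
    refine ⟨?_, h4.trans (le_max_right _ _)⟩
    have h7 : ⌈(Y : ℝ) ^ u⌉₊ ≤ p := Nat.ceil_le.2 h5
    omega
  calc ∑ p ∈ pr Y u v, 1 / (p : ℝ) ^ 2 ≤ ∑ p ∈ Ioc a (max a Y), 1 / (p : ℝ) ^ 2 :=
        sum_le_sum_of_subset_of_nonneg hsub (fun i _ _ => by positivity)
    _ = ∑ p ∈ Ioc a (max a Y), ((p : ℝ) ^ 2)⁻¹ := by
        apply sum_congr rfl
        intro p _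
        rw [one_div]
    _ ≤ (a : ℝ)⁻¹ - ((max a Y : ℕ) : ℝ)⁻¹ := sum_Ioc_inv_sq_le_sub ha1 (le_max_left _ _)
    _ ≤ (a : ℝ)⁻¹ := by
        have : (0 : ℝ) ≤ ((max a Y : ℕ) : ℝ)⁻¹ := by positivity
        linarith
    _ = 1 / (a : ℝ) := (one_div _).symm
    _ ≤ 1 / ((Y : ℝ) ^ u / 2) := one_div_le_one_div_of_le (by linarith) ha2
    _ = _ := by field_simp

/-- the densities `1 / p` are regular -/
theorem mer_inv (ε₁ υ η : ℝ) (hε : 0 < ε₁) (hυ : υ ≤ 1) (hη : 0 < η) : ∃ Y0 : ℕ, ∀ Y : ℕ,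
    Y0 ≤ Y → ∀ h : ℕ → ℝ, (∀ p : ℕ, p.Prime → p ≠ 2 → h p = 1 / p) →
      Mer (pr Y ε₁ υ) (tt Y) h ε₁ υ η := by
  classical
  obtain ⟨N1, hN1⟩ := Pool.Agent.W378.DC.MP ε₁ (η / 2) hε (by linarith)
  have ev1 : ∀ᶠ Y : ℕ in atTop, 8 / η + 3 ≤ (Y : ℝ) ^ ε₁ :=
    ((tendsto_rpow_atTop hε).comp tendsto_natCast_atTop_atTop).eventually_ge_atTop _
  obtain ⟨Y1, hY1⟩ := eventually_atTop.1 (ev1.and (eventually_ge_atTop 3))
  refine ⟨max N1 Y1, fun Y hY h hh => ?_⟩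
  obtain ⟨e1, e4⟩ := hY1 Y ((le_max_right _ _).trans hY)
  have hYN1 : N1 ≤ Y := (le_max_left _ _).trans hY
  have hYr : (3 : ℝ) ≤ Y := by exact_mod_cast e4
  have hY0 : (0 : ℝ) < Y := by linarith
  have hY1r : (1 : ℝ) < Y := by linarith
  have h8 : 0 < 8 / η := by positivity
  intro u v hu huv hv
  have hset : (pr Y ε₁ υ).filter (fun p => u ≤ tt Y p ∧ tt Y p < v) = pr Y u v := by
    ext p
    unfold pr
    rw [mem_filter, mem_filter, mem_filter]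
    constructor
    · rintro ⟨⟨h1, h2, h3, h4⟩, h5, h6⟩
      exact ⟨h1, h2, h5, h6⟩
    · rintro ⟨h1, h2, h5, h6⟩
      exact ⟨⟨h1, h2, hu.trans h5, h6.trans_le hv⟩, h5, h6⟩
  rw [hset]
  have m1 := hN1 Y hYN1 u v hu huv (hv.trans hυ)
  have hu' : (Y : ℝ) ^ ε₁ ≤ (Y : ℝ) ^ u := Real.rpow_le_rpow_of_exponent_le hY1r.le hu
  have hYu : (3 : ℝ) ≤ (Y : ℝ) ^ u := by linarith
  have hdiff : ∀ p ∈ pr Y u v, 0 ≤ 1 / ((p : ℝ) - 1) - h p ∧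
      1 / ((p : ℝ) - 1) - h p ≤ 2 * (1 / (p : ℝ) ^ 2) := by
    intro p hp
    obtain ⟨h3, h4, h5, h6⟩ := pr_facts (by omega) hp
    have hp3 : (3 : ℝ) ≤ p := hYu.trans h5
    have hp2 : p ≠ 2 := by
      rintro rfl
      norm_num at hp3
    rw [hh p h3 hp2]
    have e : 1 / ((p : ℝ) - 1) - 1 / p = 1 / ((p - 1) * p) := by
      have h1 : (p : ℝ) - 1 ≠ 0 := by linarith
      have h2 : (p : ℝ) ≠ 0 := by linarith
      field_simp
      ring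
    rw [e]
    constructor
    · apply div_nonneg zero_le_one
      apply mul_nonneg <;> linarith
    · rw [mul_one_div, div_le_div_iff₀ (by nlinarith) (by positivity)]
      nlinarith
  have hs := pr_sq (Y := Y) (by omega) u v (by linarith)
  have hs2 : 2 * (2 / (Y : ℝ) ^ u) ≤ η / 2 := by
    rw [mul_div_assoc', div_le_iff₀ (by linarith)]
    have : 8 / η ≤ (Y : ℝ) ^ u := by linarith
    rw [div_le_iff₀ hη] at this
    linarith
  have hD0 : 0 ≤ ∑ p ∈ pr Y u v, (1 / ((p : ℝ) - 1) - h p) := sum_nonneg fun p hp => (hdiff p hp).1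
  have hD1 : ∑ p ∈ pr Y u v, (1 / ((p : ℝ) - 1) - h p) ≤ η / 2 := by
    calc ∑ p ∈ pr Y u v, (1 / ((p : ℝ) - 1) - h p) ≤ ∑ p ∈ pr Y u v, 2 * (1 / (p : ℝ) ^ 2) :=
          sum_le_sum fun p hp => (hdiff p hp).2
      _ = 2 * ∑ p ∈ pr Y u v, 1 / (p : ℝ) ^ 2 := by rw [mul_sum]
      _ ≤ 2 * (2 / (Y : ℝ) ^ u) := by linarith
      _ ≤ _ := hs2
  rw [sum_sub_distrib] at hD0 hD1
  rw [abs_le] at m1 ⊢
  constructor <;> linarith [m1.1, m1.2]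

open Classical in
/-- **The weighted sieve** for the densities `1 / p`, with the remainder as it is. -/
theorem lower (τ ζ υ lam τ' : ℝ) (hζ : 0 < ζ) (h2 : 2 * ζ < τ) (h4 : τ ≤ 4 * ζ)
    (hτ : τ ≤ 1) (hζυ : ζ ≤ υ) (hυτ : υ < τ) (hlam : 0 < lam)
    (hJ0 : ∫ x in ζ..υ, (lam - lam / υ * x) / (τ - x) / x < Real.log (τ / ζ - 1) / τ)
    (h5 : τ < τ') :
    ∃ δ : ℝ, 0 < δ ∧ ∃ Y0 : ℕ, ∀ Y : ℕ, Y0 ≤ Y →
      ∃ c : Finset ℕ → ℝ, (∀ T, |c T| ≤ 5 * Real.log Y) ∧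
      (∀ T ⊆ PZ Y υ, c T ≠ 0 → ((∏ p ∈ T, p : ℕ) : ℝ) ≤ (Y : ℝ) ^ τ') ∧
      ∀ h : ℕ → ℝ, (h 2 = 0 ∨ h 2 = 1 / 2) → (∀ p : ℕ, p.Prime → p ≠ 2 → h p = 1 / p) →
      ∀ (J : Finset ℕ) (a : ℕ → ℕ),
        δ * J.card / Real.log Y + ∑ T ∈ (PZ Y υ).powerset, c T *
          (((J.filter (fun j => ∏ p ∈ T, p ∣ a j)).card : ℝ) - J.card * ∏ p ∈ T, h p) ≤
          ((J.filter (fun j => 0 < WW Y ζ υ lam (lam / υ) (a j))).card : ℝ) := by
  have hυ0 : 0 < υ := by linarith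
  obtain ⟨ε₁, η, f, hε₁, hε₁ζ, hε₁β, hη, hf, Y1, HC⟩ :=
    core3 1 τ ζ υ lam (lam / υ) τ' 1 hζ h2 h4 hτ hζυ hυτ hlam.le (by positivity)
      (by rw [div_mul_cancel₀ _ hυ0.ne']) hJ0 h5 one_pos
  obtain ⟨Y2, HM⟩ := mer_inv ε₁ υ η hε₁ (by linarith) hη
  obtain ⟨c0, hc0, HP⟩ := prod_low
  refine ⟨f * c0, by positivity, max (max Y1 Y2) 3, fun Y hY => ?_⟩
  have hY1 : Y1 ≤ Y := ((le_max_left _ _).trans (le_max_left _ _)).trans hY
  have hY2 : Y2 ≤ Y := ((le_max_right _ _).trans (le_max_left _ _)).trans hY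
  have hY3 : 3 ≤ Y := (le_max_right _ _).trans hY
  obtain ⟨c, hcL, hcD, hcN, hcV⟩ := HC Y hY1
  refine ⟨c, hcL, hcD, ?_⟩
  intro h hh2 hh J a
  have hPZ : ∀ w : ℝ, ∀ p ∈ PZ Y w, p.Prime ∧ p ≤ Y := by
    intro w p hp
    unfold PZ at hp
    rw [mem_filter, mem_Icc] at hp
    exact ⟨hp.2.1, hp.1.2⟩
  have hJr : (0 : ℝ) ≤ J.card := Nat.cast_nonneg _
  have hlY : 0 < Real.log Y := by
    apply Real.log_pos
    have : (3 : ℝ) ≤ Y := by exact_mod_cast hY3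
    linarith
  have hh01 : ∀ p : ℕ, p.Prime → 0 ≤ h p ∧ h p ≤ 1 / p := by
    intro p hp
    have hp2 : (2 : ℝ) ≤ p := by exact_mod_cast hp.two_le
    by_cases h3 : p = 2
    · subst h3
      push_cast
      rcases hh2 with h6 | h6 <;> rw [h6] <;> norm_num
    · rw [hh p hp h3]
      exact ⟨by positivity, le_refl _⟩
  have hinv1 : ∀ p : ℕ, p.Prime → 1 / (p : ℝ) ≤ 1 := by
    intro p hp
    have hp2 : (2 : ℝ) ≤ p := by exact_mod_cast hp.two_le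
    rw [div_le_one (by linarith)]
    linarith
  have hmain := hcV h (fun p hp => (hh01 p (hPZ υ p hp).1).1)
    (fun p hp => ((hh01 p (hPZ ε₁ p hp).1).2).trans (hinv1 p (hPZ ε₁ p hp).1)) (by
    intro p hp _
    have hp2 : (2 : ℝ) ≤ p := by exact_mod_cast (hPZ ε₁ p hp).1.two_le
    refine ((hh01 p (hPZ ε₁ p hp).1).2).trans ?_
    push_cast
    apply one_div_le_one_div_of_le (by linarith)
    linarith) (HM Y hY2 h hh)
  have hlow : c0 / Real.log Y ≤ ∏ p ∈ PZ Y ε₁, (1 - h p) := by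
    refine (HP Y hY3 (PZ Y ε₁) ?_).trans ?_
    · intro p hp
      rw [mem_filter, mem_Icc]
      exact ⟨⟨(hPZ ε₁ p hp).1.one_le, (hPZ ε₁ p hp).2⟩, (hPZ ε₁ p hp).1⟩
    · apply Finset.prod_le_prod
      · intro p hp
        have := hinv1 p (hPZ ε₁ p hp).1
        linarith
      · intro p hp
        have := (hh01 p (hPZ ε₁ p hp).1).2
        linarith
  have hmain' : f * (c0 / Real.log Y) ≤ VV (PZ Y υ) c h :=
    (mul_le_mul_of_nonneg_left hlow hf.le).trans hmain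
  -- the sieve inequality
  have hs : (J.card : ℝ) * VV (PZ Y υ) c h +
      ∑ T ∈ (PZ Y υ).powerset, c T * (((J.filter (fun j => ∏ p ∈ T, p ∣ a j)).card : ℝ) -
          J.card * ∏ p ∈ T, h p) ≤
      ((J.filter (fun j => 0 < WW Y ζ υ lam (lam / υ) (a j))).card : ℝ) := by
    have h6 : (J.card : ℝ) * VV (PZ Y υ) c h +
      ∑ T ∈ (PZ Y υ).powerset, c T * (((J.filter (fun j => ∏ p ∈ T, p ∣ a j)).card : ℝ) -
          J.card * ∏ p ∈ T, h p) =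
      ∑ T ∈ (PZ Y υ).powerset, c T * ((J.filter (fun j => ∏ p ∈ T, p ∣ a j)).card : ℝ) := by
      unfold VV
      rw [mul_sum, ← sum_add_distrib]
      apply sum_congr rfl
      intro T _
      ring
    have h7 : ∑ T ∈ (PZ Y υ).powerset, c T * ((J.filter (fun j => ∏ p ∈ T, p ∣ a j)).card : ℝ) =
        ∑ j ∈ J, VV (PZ Y υ) c (fun p => if p ∣ a j then 1 else 0) := by
      unfold VV
      rw [sum_comm]
      apply sum_congr rfl
      intro T hT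
      rw [mem_powerset] at hT
      rw [card_filter]
      push_cast
      rw [mul_sum]
      apply sum_congr rfl
      intro j _
      rw [Pool.Agent.Y882.PX.prod_ind T (fun p hp => (hPZ υ p (hT hp)).1)]
    rw [h6, h7, card_filter]
    push_cast
    apply sum_le_sum
    intro j _
    refine (hcN (a j)).trans ?_
    split_ifs with h
    · exact WW_le_one Y ζ υ lam (lam / υ) (by positivity) (by rw [div_mul_cancel₀ _ hυ0.ne']) (a j)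
    · exact not_lt.1 h
  have hm1 := mul_le_mul_of_nonneg_left hmain' hJr
  have e1 : f * c0 * J.card / Real.log Y = (J.card : ℝ) * (f * (c0 / Real.log Y)) := by ring
  rw [e1]
  linarith

end Pool.Agent.K3h31.LP
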