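import Pool.Agent.K3h31.LP.Mom
import Pool.Agent.K3h31.LP.Sieve

/-! Squares of medium primes; the inequality of Chebyshev. -/

set_option autoImplicit false

open Finset Filter

namespace Pool.Agent.K3h31.LP

open Pool.Agent.W23.DC
open Pool.Agent.Y882
open Pool.Agent.Y882.KW

open Classical in
/-- the `k ≤ x` such that `2 k n + 1` is divisible by the square of a medium prime -/
noncomputable def sqk (Y : ℕ) (ζ υ : ℝ) (n x : ℕ) : Finset ℕ :=
  (Icc 1 x).filter (fun k => ∃ q ∈ pr Y ζ υ, q ^ 2 ∣ 2 * k * n + 1)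

theorem card_pr {Y : ℕ} (hY : 2 ≤ Y) (ζ υ : ℝ) : ((pr Y ζ υ).card : ℝ) ≤ (Y : ℝ) ^ υ := by
  have h1 : (pr Y ζ υ).card ≤ (Icc 1 ⌊(Y : ℝ) ^ υ⌋₊).card := by
    apply card_le_card
    intro p hp
    obtain ⟨h3, h4, h5, h6⟩ := pr_facts hY hp
    rw [mem_Icc]
    exact ⟨h3.one_le, Nat.le_floor h6.le⟩
  rw [Nat.card_Icc, Nat.add_sub_cancel] at h1
  calc ((pr Y ζ υ).card : ℝ) ≤ (⌊(Y : ℝ) ^ υ⌋₊ : ℝ) := by exact_mod_cast h1
    _ ≤ _ := Nat.floor_le (by positivity)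

theorem count_n (P k q : ℕ) (hq : q.Prime) :
    (((Icc 1 P).filter (fun n => q ^ 2 ∣ 2 * k * n + 1)).card : ℝ) ≤ P * (1 / (q : ℝ) ^ 2) + 1 := by
  by_cases h : Nat.Coprime (2 * k) (q ^ 2)
  · have := class_count (q ^ 2) (pow_pos hq.pos 2) (2 * k) 1 h P
    rw [abs_le] at this
    push_cast at this
    have e : (P : ℝ) * (1 / (q : ℝ) ^ 2) = (P : ℝ) / (q : ℝ) ^ 2 := by ring
    rw [e]
    linarith [this.2]
  · have : (Icc 1 P).filter (fun n => q ^ 2 ∣ 2 * k * n + 1) = ∅ := by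
      rw [filter_eq_empty_iff]
      intro u _ hu
      exact h (Nat.Coprime.coprime_mul_right_right (cop_of_dvd hu)).symm
    rw [this]
    simp only [card_empty, Nat.cast_zero]
    positivity

theorem sq_sum {Y : ℕ} (hY : 2 ≤ Y) (ζ υ : ℝ) (hζ : (2 : ℝ) ≤ (Y : ℝ) ^ ζ) (P x : ℕ) :
    ∑ n ∈ Icc 1 P, ((sqk Y ζ υ n x).card : ℝ) ≤ x * (P * (2 / (Y : ℝ) ^ ζ) + (Y : ℝ) ^ υ) := by
  classical
  have h1 : ∀ n ∈ Icc 1 P, ((sqk Y ζ υ n x).card : ℝ) ≤
      ∑ k ∈ Icc 1 x, ∑ q ∈ pr Y ζ υ, (if q ^ 2 ∣ 2 * k * n + 1 then (1 : ℝ) else 0) := by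
    intro n _
    unfold sqk
    rw [card_filter]
    push_cast
    apply sum_le_sum
    intro k _
    have h0 : 0 ≤ ∑ q ∈ pr Y ζ υ, (if q ^ 2 ∣ 2 * k * n + 1 then (1 : ℝ) else 0) :=
      sum_nonneg fun q _ => by split_ifs <;> norm_num
    split_ifs with h
    · obtain ⟨q, hq, hqd⟩ := h
      have h2 := single_le_sum (f := fun q => (if q ^ 2 ∣ 2 * k * n + 1 then (1 : ℝ) else 0))
        (fun q _ => by
          show (0 : ℝ) ≤ if q ^ 2 ∣ 2 * k * n + 1 then (1 : ℝ) else 0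
          split_ifs <;> norm_num) hq
      simp only [if_pos hqd] at h2
      exact h2
    · exact h0
  calc ∑ n ∈ Icc 1 P, ((sqk Y ζ υ n x).card : ℝ) ≤
      ∑ n ∈ Icc 1 P, ∑ k ∈ Icc 1 x, ∑ q ∈ pr Y ζ υ, (if q ^ 2 ∣ 2 * k * n + 1 then (1 : ℝ) else 0) :=
        sum_le_sum h1
    _ = ∑ k ∈ Icc 1 x, ∑ q ∈ pr Y ζ υ, ∑ n ∈ Icc 1 P,
        (if q ^ 2 ∣ 2 * k * n + 1 then (1 : ℝ) else 0) := by
        rw [sum_comm]
        apply sum_congr rfl
        intro k _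
        rw [sum_comm]
    _ ≤ ∑ k ∈ Icc 1 x, (P * (2 / (Y : ℝ) ^ ζ) + (Y : ℝ) ^ υ) := by
        apply sum_le_sum
        intro k _
        calc ∑ q ∈ pr Y ζ υ, ∑ n ∈ Icc 1 P, (if q ^ 2 ∣ 2 * k * n + 1 then (1 : ℝ) else 0) ≤
            ∑ q ∈ pr Y ζ υ, (P * (1 / (q : ℝ) ^ 2) + 1) := by
              apply sum_le_sum
              intro q hq
              have := count_n P k q (pr_facts hY hq).1
              rw [card_filter] at this
              push_cast at this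
              exact this
          _ = P * ∑ q ∈ pr Y ζ υ, (1 / (q : ℝ) ^ 2) + (pr Y ζ υ).card := by
              rw [sum_add_distrib, ← mul_sum, sum_const, nsmul_eq_mul, mul_one]
          _ ≤ _ := by
              apply add_le_add
              · exact mul_le_mul_of_nonneg_left (pr_sq hY ζ υ hζ) (Nat.cast_nonneg _)
              · exact card_pr hY ζ υ
    _ = _ := by
        rw [sum_const, Nat.card_Icc, Nat.add_sub_cancel, nsmul_eq_mul]

/-- the inequality of Chebyshev -/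
theorem cheb (A : Finset ℕ) (S : ℕ → ℝ) (t : ℝ) (ht : 0 ≤ t) :
    ((A.filter (fun n => t < |S n|)).card : ℝ) * t ^ 2 ≤ ∑ n ∈ A, S n ^ 2 := by
  classical
  calc ((A.filter (fun n => t < |S n|)).card : ℝ) * t ^ 2 =
      ∑ n ∈ A.filter (fun n => t < |S n|), t ^ 2 := by
        rw [sum_const, nsmul_eq_mul]
    _ ≤ ∑ n ∈ A.filter (fun n => t < |S n|), S n ^ 2 := by
        apply sum_le_sum
        intro n hn
        rw [mem_filter] at hn
        rw [← sq_abs (S n)]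
        exact pow_le_pow_left₀ ht hn.2.le 2
    _ ≤ _ := sum_le_sum_of_subset_of_nonneg (filter_subset _ _) (fun n _ _ => sq_nonneg _)

/-- the inequality of Markov -/
theorem markov (A : Finset ℕ) (S : ℕ → ℝ) (hS : ∀ n, 0 ≤ S n) (t : ℝ) :
    ((A.filter (fun n => t < S n)).card : ℝ) * t ≤ ∑ n ∈ A, S n := by
  classical
  calc ((A.filter (fun n => t < S n)).card : ℝ) * t = ∑ n ∈ A.filter (fun n => t < S n), t := by
        rw [sum_const, nsmul_eq_mul]
    _ ≤ ∑ n ∈ A.filter (fun n => t < S n), S n := by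
        apply sum_le_sum
        intro n hn
        rw [mem_filter] at hn
        exact hn.2.le
    _ ≤ _ := sum_le_sum_of_subset_of_nonneg (filter_subset _ _) (fun n _ _ => hS n)

end Pool.Agent.K3h31.LP
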